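import Mathlib

/-!
# Cloning groups built from an automorphism of order two (MP_335bcb_an): definitions
-/

set_option autoImplicit false

namespace Pool.Agent.R288.CL

/-- Finite rooted binary trees. -/
inductive Tr : Type where
  | leaf : Tr
  | node : Tr → Tr → Tr

/-- The number of leaves. -/
def Tr.leaves : Tr → ℕ
  | .leaf => 1
  | .node l r => l.leaves + r.leaves

/-- Attach a caret at leaf number `k` (leaves are numbered from left to right, starting
with `0`). -/
def Tr.graft : Tr → ℕ → Tr
  | .leaf, _ => .node .leaf .leaf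
  | .node l r, k => if k < l.leaves then .node (l.graft k) r else .node l (r.graft (k - l.leaves))

/-- The cloning map: the entry `g_k` (numbered from `0`) is replaced by `g_k, φ(g_k)`. -/
def clone {G : Type} (φ : G → G) : ℕ → List G → List G
  | _, [] => []
  | 0, a :: g => a :: φ a :: g
  | k + 1, a :: g => a :: clone φ k g

/-- Triples `(T₋, g, T₊)`: two finite rooted binary trees with the same number of leaves, and
one group element for each leaf. -/
structure Triple (G : Type) where
  /-- the tree `T₋` -/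
  tm : Tr
  /-- the list `g = (g_1, …, g_n)` -/
  lab : List G
  /-- the tree `T₊` -/
  tp : Tr
  hm : lab.length = tm.leaves
  hp : lab.length = tp.leaves

/-- `t` is obtained from `s` by an expansion at a leaf. -/
def Exp {G : Type} (φ : G → G) (s t : Triple G) : Prop :=
  ∃ k < s.lab.length, t.tm = s.tm.graft k ∧ t.lab = clone φ k s.lab ∧ t.tp = s.tp.graft k

/-- the condition for `∏^n(G) = G^n` (no condition) -/
def AllLab {G : Type} (_ : List G) : Prop := True

/-- the condition for `Ψ^n(G) = {1} × G^{n-1}` -/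
def PsiLab {G : Type} [Group G] (g : List G) : Prop := g.head? = some 1

/-- The group `Γ`, with the map `cls : (T₋, g, T₊) ↦ [T₋, g, T₊]`, is the group of classes of the
triples with `A g`, for the equivalence relation generated by the expansions, with the product
`[T₋, g, T₊][T₊, h, U₊] = [T₋, gh, U₊]`. -/
structure IsCloningGroup {G : Type} [Group G] (φ : G → G) (A : List G → Prop) (Γ : Type) [Group Γ]
    (cls : {t : Triple G // A t.lab} → Γ) : Prop where
  surj : Function.Surjective cls
  eq_iff : ∀ s t, cls s = cls t ↔ Relation.EqvGen (fun s t => Exp φ s.1 t.1) s t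
  mul : ∀ r s t : {t : Triple G // A t.lab}, r.1.tp = s.1.tm → t.1.tm = r.1.tm → t.1.tp = s.1.tp →
    t.1.lab = List.zipWith (· * ·) r.1.lab s.1.lab → cls r * cls s = cls t

/-! ### Auxiliary definitions (for the proofs only) -/

/-- What the operator algebraic part needs about the group. -/
structure Data (Γ : Type) [Group Γ] (s t : ℕ → Γ) : Prop where
  comm_ss : ∀ m n, m ≠ n → Commute (s m) (s n)
  comm_tt : ∀ m n, m ≠ n → Commute (t m) (t n)
  comm_st : ∀ m n, m ≠ n → Commute (s m) (t n)
  indep : ∀ m, Disjoint (Subgroup.closure {s m, t m})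
    (Subgroup.closure {g | ∃ n, n ≠ m ∧ (g = s n ∨ g = t n)})
  ord : ∀ k : ℤ, s 0 ^ k = 1 → k = 0
  w1 : s 0 * t 0 ≠ t 0 * s 0
  w2 : s 0 * t 0 ≠ t 0 * (s 0)⁻¹
  w3 : s 0 * t 0 ≠ (t 0)⁻¹ * s 0
  w4 : s 0 * t 0 ≠ (t 0)⁻¹ * (s 0)⁻¹
  shift : ∀ m, ∃ g, s m = g * s 0 * g⁻¹ ∧ t m = g * t 0 * g⁻¹
  conj : ∀ g : Γ, ∃ a b : ℕ, ∀ m, g * s (m + b) * g⁻¹ = s (m + a) ∧
    g * t (m + b) * g⁻¹ = t (m + a)

/-- The space `{0,1}^ℕ × G`. -/
abbrev X (G : Type) : Type := (ℕ → Bool) × G

/-- put the letter `i` in front of a sequence -/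
def cons (i : Bool) (x : ℕ → Bool) : ℕ → Bool
  | 0 => i
  | n + 1 => x n

/-- the left half map `(x, g) ↦ (0x, g)` -/
def A0 {G : Type} (p : X G) : X G := (cons false p.1, p.2)

/-- the right half map `(x, g) ↦ (1x, φ g)` -/
def A1 {G : Type} (φ : G → G) (p : X G) : X G := (cons true p.1, φ p.2)

/-- left multiplication on the second coordinate -/
def act {G : Type} [Group G] (g : G) (p : X G) : X G := (p.1, g * p.2)

/-- the embedding of the space onto the part given by leaf `k` of the tree -/
def place {G : Type} (φ : G → G) : Tr → ℕ → X G → X G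
  | .leaf, _, p => p
  | .node l r, k, p => if k < l.leaves then A0 (place φ l k p)
      else A1 φ (place φ r (k - l.leaves) p)

end Pool.Agent.R288.CL
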