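import Mathlib
import Pool.Agent.R288.CL.Defs
import Pool.Agent.Helper436.SN.StmtG

/-!
# MP_335bcb_an: the operator algebraic definitions
-/

set_option autoImplicit false

open Filter Topology
open scoped InnerProductSpace

namespace Pool.Agent.R288.CL

open Pool.Agent.Helper278 Pool.Agent.Helper436.SN

section

variable {H : Type} [NormedAddCommGroup H] [InnerProductSpace ℂ H] [CompleteSpace H]

/-- For a von Neumann algebra `N` with the trace `τ(x) = ⟨x ξ, ξ⟩`, so that `‖x‖₂ = ‖x ξ‖`: `u` is a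
central sequence of unitaries of `N`, that is, `‖u_n x - x u_n‖₂ → 0` for every `x` in `N`. -/
def IsCentral (N : VonNeumannAlgebra H) (ξ : H) (u : ℕ → H →L[ℂ] H) : Prop :=
  (∀ n, u n ∈ N) ∧ (∀ n, u n ∈ unitary (H →L[ℂ] H)) ∧
    ∀ x ∈ N, Tendsto (fun n => ‖(u n * x - x * u n) ξ‖) atTop (𝓝 0)

/-- Property Gamma: there is a central sequence of unitaries of trace `0`. -/
def PropertyGamma (N : VonNeumannAlgebra H) (ξ : H) : Prop :=
  ∃ u, IsCentral N ξ u ∧ ∀ n, ⟪ξ, u n ξ⟫_ℂ = 0

/-- There are two central sequences of unitaries whose commutators stay away from `0` in the 2-norm.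
By McDuff's theorem, a II₁ factor `N` with separable predual has this property if and only if it is
McDuff. -/
def NonCommutingCentralSequences (N : VonNeumannAlgebra H) (ξ : H) : Prop :=
  ∃ u w, IsCentral N ξ u ∧ IsCentral N ξ w ∧
    ∃ c : ℝ, 0 < c ∧ ∀ n, c ≤ ‖(u n * w n - w n * u n) ξ‖

end

/-- `L(Γ)`, with its canonical trace `τ(x) = ⟨x δ_e, δ_e⟩`, has property Gamma and two noncommuting
central sequences. -/
def GammaAndMcDuff (Γ : Type) [Group Γ] : Prop :=
  PropertyGamma (LG Γ) (dirac Γ) ∧ NonCommutingCentralSequences (LG Γ) (dirac Γ)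

/-- OP: the operator algebraic part. -/
def OP_stm : Prop := ∀ (Γ : Type) [Group Γ] (s t : ℕ → Γ), Data Γ s t → GammaAndMcDuff Γ

end Pool.Agent.R288.CL
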