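import Pool.Agent.R288.CL.Stm

/-!
# MP_335bcb_an: the action of the tree-pair group (pieces GA and GC)
-/

set_option autoImplicit false

namespace Pool.Agent.R288.CL

open Relation

variable {G : Type}

theorem Tr.leaves_pos (T : Tr) : 0 < T.leaves := by
  induction T with
  | leaf => simp [Tr.leaves]
  | node l r ihl ihr => simp only [Tr.leaves]; omega

theorem Tr.leaves_graft (T : Tr) (k : ℕ) : (T.graft k).leaves = T.leaves + 1 := by
  induction T generalizing k with
  | leaf => simp [Tr.graft, Tr.leaves]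
  | node l r ihl ihr =>
    simp only [Tr.graft]
    split_ifs with h
    · simp only [Tr.leaves, ihl]; omega
    · simp only [Tr.leaves, ihr]; omega

theorem A0_inj {p q : X G} (h : A0 p = A0 q) : p = q := by
  obtain ⟨x, g⟩ := p
  obtain ⟨y, h'⟩ := q
  simp only [A0, Prod.mk.injEq] at h
  obtain ⟨h1, h2⟩ := h
  subst h2
  congr 1
  funext n
  exact congrFun h1 (n + 1)

theorem A1_inj {φ : G → G} (hφ : ∀ g, φ (φ g) = g) {p q : X G} (h : A1 φ p = A1 φ q) :
    p = q := by
  obtain ⟨x, g⟩ := p
  obtain ⟨y, h'⟩ := q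
  simp only [A1, Prod.mk.injEq] at h
  obtain ⟨h1, h2⟩ := h
  have h3 : g = h' := by rw [← hφ g, ← hφ h', h2]
  subst h3
  congr 1
  funext n
  exact congrFun h1 (n + 1)

theorem A0_ne_A1 {φ : G → G} (p q : X G) : A0 p ≠ A1 φ q := by
  intro h
  have := congrFun (congrArg Prod.fst h) 0
  simp [A0, A1, cons] at this

theorem place_node_lt {φ : G → G} (l r : Tr) (k : ℕ) (h : k < l.leaves) (p : X G) :
    place φ (.node l r) k p = A0 (place φ l k p) := by
  simp [place, h]

theorem place_node_ge {φ : G → G} (l r : Tr) (k : ℕ) (h : ¬ k < l.leaves) (p : X G) :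
    place φ (.node l r) k p = A1 φ (place φ r (k - l.leaves) p) := by
  simp [place, h]

theorem place_graft (φ : G → G) (T : Tr) (k j : ℕ) (hk : k < T.leaves) (hj : j ≤ T.leaves)
    (p : X G) : place φ (T.graft k) j p = if j < k then place φ T j p
      else if j = k then place φ T k (A0 p)
      else if j = k + 1 then place φ T k (A1 φ p) else place φ T (j - 1) p := by
  induction T generalizing k j with
  | leaf =>
    simp only [Tr.leaves] at hk hj
    obtain rfl : k = 0 := by omega
    rcases Nat.lt_or_ge 0 j with h | h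
    · obtain rfl : j = 1 := by omega
      simp [Tr.graft, place, Tr.leaves]
    · obtain rfl : j = 0 := by omega
      simp [Tr.graft, place, Tr.leaves]
  | node l r ihl ihr =>
    simp only [Tr.leaves] at hk hj
    simp only [Tr.graft]
    by_cases hkl : k < l.leaves
    · rw [if_pos hkl]
      by_cases hjl : j ≤ l.leaves
      · rw [place_node_lt _ _ _ (by rw [Tr.leaves_graft]; omega), ihl k j hkl hjl]
        by_cases h1 : j < k
        · rw [if_pos h1, if_pos h1, place_node_lt _ _ _ (by omega)]
        rw [if_neg h1, if_neg h1]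
        by_cases h2 : j = k
        · rw [if_pos h2, if_pos h2, place_node_lt _ _ _ hkl]
        rw [if_neg h2, if_neg h2]
        by_cases h3 : j = k + 1
        · rw [if_pos h3, if_pos h3, place_node_lt _ _ _ hkl]
        rw [if_neg h3, if_neg h3, place_node_lt _ _ _ (by omega)]
      · rw [place_node_ge _ _ _ (by rw [Tr.leaves_graft]; omega), if_neg (by omega),
          if_neg (by omega), if_neg (by omega), place_node_ge _ _ _ (by omega), Tr.leaves_graft]
        congr 2
        omega
    · rw [if_neg hkl]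
      by_cases hjl : j < l.leaves
      · rw [place_node_lt _ _ _ hjl, if_pos (by omega), place_node_lt _ _ _ hjl]
      · rw [place_node_ge _ _ _ hjl, ihr (k - l.leaves) (j - l.leaves) (by omega) (by omega)]
        by_cases h1 : j < k
        · rw [if_pos h1, if_pos (by omega), place_node_ge _ _ _ (by omega)]
        rw [if_neg h1, if_neg (by omega)]
        by_cases h2 : j = k
        · rw [if_pos h2, if_pos (by omega), place_node_ge _ _ _ hkl]
        rw [if_neg h2, if_neg (by omega)]
        by_cases h3 : j = k + 1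
        · rw [if_pos h3, if_pos (by omega), place_node_ge _ _ _ hkl]
        rw [if_neg h3, if_neg (by omega), place_node_ge _ _ _ (by omega)]
        congr 2
        omega

theorem place_inj {φ : G → G} (hφ : ∀ g, φ (φ g) = g) (T : Tr) {k k' : ℕ}
    (hk : k < T.leaves) (hk' : k' < T.leaves) {p p' : X G}
    (h : place φ T k p = place φ T k' p') : k = k' ∧ p = p' := by
  induction T generalizing k k' with
  | leaf =>
    simp only [Tr.leaves] at hk hk'
    exact ⟨by omega, h⟩
  | node l r ihl ihr =>
    simp only [Tr.leaves] at hk hk'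
    by_cases h1 : k < l.leaves
    · by_cases h2 : k' < l.leaves
      · rw [place_node_lt _ _ _ h1, place_node_lt _ _ _ h2] at h
        exact ihl h1 h2 (A0_inj h)
      · rw [place_node_lt _ _ _ h1, place_node_ge _ _ _ h2] at h
        exact absurd h (A0_ne_A1 _ _)
    · by_cases h2 : k' < l.leaves
      · rw [place_node_ge _ _ _ h1, place_node_lt _ _ _ h2] at h
        exact absurd h.symm (A0_ne_A1 _ _)
      · rw [place_node_ge _ _ _ h1, place_node_ge _ _ _ h2] at h
        obtain ⟨e1, e2⟩ := ihr (by omega) (by omega) (A1_inj hφ h)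
        exact ⟨by omega, e2⟩

theorem exists_place {φ : G → G} (hφ : ∀ g, φ (φ g) = g) (T : Tr) (x : X G) :
    ∃ k < T.leaves, ∃ p, place φ T k p = x := by
  induction T generalizing x with
  | leaf => exact ⟨0, by simp [Tr.leaves], x, rfl⟩
  | node l r ihl ihr =>
    obtain ⟨f, g⟩ := x
    by_cases h : f 0 = false
    · obtain ⟨k, hk, p, hp⟩ := ihl (fun n => f (n + 1), g)
      refine ⟨k, by simp only [Tr.leaves]; omega, p, ?_⟩
      rw [place_node_lt _ _ _ hk, hp]
      simp only [A0, Prod.mk.injEq, and_true]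
      funext n
      cases n with
      | zero => exact h.symm
      | succ n => rfl
    · obtain ⟨k, hk, p, hp⟩ := ihr (fun n => f (n + 1), φ g)
      refine ⟨l.leaves + k, by simp only [Tr.leaves]; omega, p, ?_⟩
      rw [place_node_ge _ _ _ (by omega), Nat.add_sub_cancel_left, hp]
      simp only [A1, hφ, Prod.mk.injEq, and_true]
      funext n
      cases n with
      | zero =>
        simp only [Bool.not_eq_false] at h
        exact h.symm
      | succ n => rfl

variable [Group G]

theorem act_mul (g h : G) (p : X G) : act g (act h p) = act (g * h) p := by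
  simp [act, mul_assoc]

theorem act_one (p : X G) : act (1 : G) p = p := by
  simp [act]

theorem act_A0 (g : G) (p : X G) : act g (A0 p) = A0 (act g p) := rfl

theorem act_A1 (φ : G ≃* G) (hφ : ∀ g, φ (φ g) = g) (g : G) (p : X G) :
    act g (A1 φ p) = A1 φ (act (φ g) p) := by
  simp [act, A1, hφ]

theorem exists_fwd (φ : G ≃* G) (hφ : ∀ g, φ (φ g) = g) (t : Triple G) (x : X G) :
    ∃ y, ∀ k < t.lab.length, ∀ p, place φ t.tp k p = x →
      y = place φ t.tm k (act (t.lab.getD k 1) p) := by
  obtain ⟨k, hk, p, hp⟩ := exists_place hφ t.tp x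
  refine ⟨place φ t.tm k (act (t.lab.getD k 1) p), ?_⟩
  intro k' hk' p' hp'
  obtain ⟨rfl, rfl⟩ := place_inj hφ t.tp hk (by rw [← t.hp]; exact hk') (hp.trans hp'.symm)
  rfl

/-- The map attached to a triple. -/
noncomputable def fwd (φ : G ≃* G) (hφ : ∀ g, φ (φ g) = g) (t : Triple G) (x : X G) : X G :=
  (exists_fwd φ hφ t x).choose

theorem fwd_place (φ : G ≃* G) (hφ : ∀ g, φ (φ g) = g) (t : Triple G) {k : ℕ}
    (hk : k < t.lab.length) (p : X G) :
    fwd φ hφ t (place φ t.tp k p) = place φ t.tm k (act (t.lab.getD k 1) p) :=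
  (exists_fwd φ hφ t (place φ t.tp k p)).choose_spec k hk p rfl

theorem fwd_bij (φ : G ≃* G) (hφ : ∀ g, φ (φ g) = g) (t : Triple G) :
    Function.Bijective (fwd φ hφ t) := by
  constructor
  · intro x x' h
    obtain ⟨k, hk, p, rfl⟩ := exists_place hφ t.tp x
    obtain ⟨k', hk', p', rfl⟩ := exists_place hφ t.tp x'
    rw [← t.hp] at hk hk'
    rw [fwd_place φ hφ t hk, fwd_place φ hφ t hk'] at h
    obtain ⟨rfl, h2⟩ := place_inj hφ t.tm (by rw [← t.hm]; exact hk)
      (by rw [← t.hm]; exact hk') h
    have h3 : p = p' := by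
      have := congrArg (act (t.lab.getD k 1)⁻¹) h2
      rwa [act_mul, act_mul, inv_mul_cancel, act_one, act_one] at this
    rw [h3]
  · intro y
    obtain ⟨k, hk, q, rfl⟩ := exists_place hφ t.tm y
    rw [← t.hm] at hk
    refine ⟨place φ t.tp k (act (t.lab.getD k 1)⁻¹ q), ?_⟩
    rw [fwd_place φ hφ t hk, act_mul, mul_inv_cancel, act_one]

/-- The permutation attached to a triple. -/
noncomputable def perm (φ : G ≃* G) (hφ : ∀ g, φ (φ g) = g) (t : Triple G) :
    Equiv.Perm (X G) := Equiv.ofBijective _ (fwd_bij φ hφ t)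

theorem perm_place (φ : G ≃* G) (hφ : ∀ g, φ (φ g) = g) (t : Triple G) {k : ℕ}
    (hk : k < t.lab.length) (p : X G) :
    perm φ hφ t (place φ t.tp k p) = place φ t.tm k (act (t.lab.getD k 1) p) :=
  fwd_place φ hφ t hk p

theorem perm_ext (φ : G ≃* G) (hφ : ∀ g, φ (φ g) = g) (T : Tr) {e e' : Equiv.Perm (X G)}
    (h : ∀ k < T.leaves, ∀ p, e (place φ T k p) = e' (place φ T k p)) : e = e' := by
  ext1 x
  obtain ⟨k, hk, p, rfl⟩ := exists_place hφ T x
  exact h k hk p

theorem clone_length (φ : G → G) (k : ℕ) (g : List G) (hk : k < g.length) :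
    (clone φ k g).length = g.length + 1 := by
  induction g generalizing k with
  | nil => simp at hk
  | cons a g ih =>
    cases k with
    | zero => simp [clone]
    | succ k =>
      simp only [clone, List.length_cons]
      rw [ih k (by simpa using hk)]

theorem clone_getD (φ : G → G) (k j : ℕ) (g : List G) (hk : k < g.length) :
    (clone φ k g).getD j 1 = if j < k then g.getD j 1 else if j = k then g.getD k 1
      else if j = k + 1 then φ (g.getD k 1) else g.getD (j - 1) 1 := by
  induction g generalizing k j with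
  | nil => simp at hk
  | cons a g ih =>
    cases k with
    | zero =>
      simp only [clone]
      match j with
      | 0 => simp
      | 1 => simp
      | j + 2 => simp
    | succ k =>
      simp only [clone]
      cases j with
      | zero => simp
      | succ j =>
        rw [List.getD_cons_succ, ih k j (by simpa using hk)]
        by_cases h1 : j < k
        · rw [if_pos h1, if_pos (show j + 1 < k + 1 by omega), List.getD_cons_succ]
        rw [if_neg h1, if_neg (show ¬ j + 1 < k + 1 by omega)]
        by_cases h2 : j = k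
        · rw [if_pos h2, if_pos (show j + 1 = k + 1 by omega), List.getD_cons_succ]
        rw [if_neg h2, if_neg (show ¬ j + 1 = k + 1 by omega)]
        by_cases h3 : j = k + 1
        · rw [if_pos h3, if_pos (show j + 1 = k + 1 + 1 by omega), List.getD_cons_succ]
        rw [if_neg h3, if_neg (show ¬ j + 1 = k + 1 + 1 by omega)]
        obtain ⟨i, rfl⟩ : ∃ i, j = i + 1 := ⟨j - 1, by omega⟩
        simp

theorem clone_head (φ : G → G) (k : ℕ) (g : List G) : (clone φ k g).head? = g.head? := by
  cases g with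
  | nil => simp [clone]
  | cons a g =>
    cases k with
    | zero => simp [clone]
    | succ k => simp [clone]

theorem perm_exp (φ : G ≃* G) (hφ : ∀ g, φ (φ g) = g) {s t : Triple G} (h : Exp φ s t) :
    perm φ hφ s = perm φ hφ t := by
  obtain ⟨k, hk, h1, h2, h3⟩ := h
  have hks : k < s.tp.leaves := by rw [← s.hp]; exact hk
  have hkm : k < s.tm.leaves := by rw [← s.hm]; exact hk
  apply perm_ext φ hφ t.tp
  intro j hj p
  have hjl : j < t.lab.length := by rw [t.hp]; exact hj
  have hjs : j ≤ s.tp.leaves := by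
    rw [h3, Tr.leaves_graft] at hj; omega
  have hjm : j ≤ s.tm.leaves := by
    rw [← s.hm, s.hp]; exact hjs
  rw [perm_place φ hφ t hjl, h1, place_graft φ s.tm k j hkm hjm, h2,
    clone_getD φ k j s.lab hk, h3, place_graft φ s.tp k j hks hjs]
  by_cases c1 : j < k
  · rw [if_pos c1, if_pos c1, if_pos c1, perm_place φ hφ s (by omega)]
  rw [if_neg c1, if_neg c1, if_neg c1]
  by_cases c2 : j = k
  · rw [if_pos c2, if_pos c2, if_pos c2, perm_place φ hφ s hk, act_A0]
  rw [if_neg c2, if_neg c2, if_neg c2]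
  by_cases c3 : j = k + 1
  · rw [if_pos c3, if_pos c3, if_pos c3, perm_place φ hφ s hk, act_A1 φ hφ]
  rw [if_neg c3, if_neg c3, if_neg c3, perm_place φ hφ s (by rw [s.hp]; omega)]

theorem zip_getD (a b : List G) (k : ℕ) (ha : k < a.length) (hb : k < b.length) :
    (List.zipWith (· * ·) a b).getD k 1 = a.getD k 1 * b.getD k 1 := by
  have h : k < (List.zipWith (· * ·) a b).length := by
    rw [List.length_zipWith]; omega
  rw [List.getD_eq_getElem _ _ h, List.getD_eq_getElem _ _ ha, List.getD_eq_getElem _ _ hb,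
    List.getElem_zipWith]

theorem perm_mul (φ : G ≃* G) (hφ : ∀ g, φ (φ g) = g) {r s t : Triple G}
    (h1 : r.tp = s.tm) (h2 : t.tm = r.tm) (h3 : t.tp = s.tp)
    (h4 : t.lab = List.zipWith (· * ·) r.lab s.lab) :
    perm φ hφ r * perm φ hφ s = perm φ hφ t := by
  apply perm_ext φ hφ s.tp
  intro k hk p
  have hks : k < s.lab.length := by rw [s.hp]; exact hk
  have hkr : k < r.lab.length := by rw [r.hp, h1, ← s.hm]; exact hks
  have hkt : k < t.lab.length := by rw [t.hp, h3]; exact hk
  rw [Equiv.Perm.mul_apply, perm_place φ hφ s hks, ← h1, perm_place φ hφ r hkr, act_mul,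
    ← h3, perm_place φ hφ t hkt, h2, h4, zip_getD _ _ _ hkr hks]

/-- The swapped triple with inverse labels. -/
def Triple.inv (t : Triple G) : Triple G where
  tm := t.tp
  lab := t.lab.map (·⁻¹)
  tp := t.tm
  hm := by rw [List.length_map]; exact t.hp
  hp := by rw [List.length_map]; exact t.hm

theorem perm_inv (φ : G ≃* G) (hφ : ∀ g, φ (φ g) = g) (t : Triple G) :
    perm φ hφ t.inv = (perm φ hφ t)⁻¹ := by
  rw [eq_inv_iff_mul_eq_one]
  apply perm_ext φ hφ t.tp
  intro k hk p
  have hkt : k < t.lab.length := by rw [t.hp]; exact hk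
  have hki : k < t.inv.lab.length := by
    change k < (t.lab.map (·⁻¹)).length
    rw [List.length_map]; exact hkt
  rw [Equiv.Perm.mul_apply, perm_place φ hφ t hkt]
  change perm φ hφ t.inv (place φ t.inv.tp k _) = _
  rw [perm_place φ hφ t.inv hki, act_mul]
  have : t.inv.lab.getD k 1 = (t.lab.getD k 1)⁻¹ := by
    change (t.lab.map (·⁻¹)).getD k 1 = _
    rw [List.getD_eq_getElem _ _ (by rw [List.length_map]; exact hkt),
      List.getD_eq_getElem _ _ hkt, List.getElem_map]
  rw [this, inv_mul_cancel, act_one]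
  rfl

/-- Expansion of trees. -/
def Ex : Tr → Tr → Prop := ReflTransGen (fun U W => ∃ k < U.leaves, W = U.graft k)

theorem Ex_node_left {l l' : Tr} (r : Tr) (h : Ex l l') : Ex (.node l r) (.node l' r) := by
  induction h with
  | refl => exact ReflTransGen.refl
  | tail _ h ih =>
    obtain ⟨k, hk, rfl⟩ := h
    refine ih.tail ⟨k, by simp only [Tr.leaves]; omega, ?_⟩
    simp [Tr.graft, hk]

theorem Ex_node_right (l : Tr) {r r' : Tr} (h : Ex r r') : Ex (.node l r) (.node l r') := by
  induction h with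
  | refl => exact ReflTransGen.refl
  | tail _ h ih =>
    obtain ⟨k, hk, rfl⟩ := h
    refine ih.tail ⟨l.leaves + k, by simp only [Tr.leaves]; omega, ?_⟩
    simp [Tr.graft]

theorem Ex_node {l l' r r' : Tr} (h1 : Ex l l') (h2 : Ex r r') :
    Ex (.node l r) (.node l' r') :=
  (Ex_node_left r h1).trans (Ex_node_right l' h2)

theorem Ex_leaf (W : Tr) : Ex .leaf W := by
  induction W with
  | leaf => exact ReflTransGen.refl
  | node l r ihl ihr =>
    have h : Ex .leaf (.node .leaf .leaf) :=
      ReflTransGen.single ⟨0, by simp [Tr.leaves], rfl⟩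
    exact h.trans (Ex_node ihl ihr)

theorem Ex_common (T T' : Tr) : ∃ W, Ex T W ∧ Ex T' W := by
  induction T generalizing T' with
  | leaf => exact ⟨T', Ex_leaf _, ReflTransGen.refl⟩
  | node l r ihl ihr =>
    cases T' with
    | leaf => exact ⟨.node l r, ReflTransGen.refl, Ex_leaf _⟩
    | node l' r' =>
      obtain ⟨W1, a1, a2⟩ := ihl l'
      obtain ⟨W2, b1, b2⟩ := ihr r'
      exact ⟨.node W1 W2, Ex_node a1 b1, Ex_node a2 b2⟩

/-- Closure properties of the label condition. -/
structure Adm (φ : G → G) (A : List G → Prop) : Prop where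
  clone : ∀ k g, A g → A (clone φ k g)
  mul : ∀ g h : List G, A g → A h → A (List.zipWith (· * ·) g h)
  inv : ∀ g : List G, A g → A (g.map (·⁻¹))
  one : A [1]

theorem adm (φ : G → G) {A : List G → Prop} (hA : A = AllLab ∨ A = PsiLab) : Adm φ A := by
  rcases hA with rfl | rfl
  · exact ⟨fun _ _ _ => trivial, fun _ _ _ _ => trivial, fun _ _ => trivial, trivial⟩
  · refine ⟨?_, ?_, ?_, rfl⟩
    · intro k g hg
      unfold PsiLab at *
      rw [clone_head]; exact hg
    · intro g h hg hh
      unfold PsiLab at *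
      cases g with
      | nil => simp at hg
      | cons a g =>
        cases h with
        | nil => simp at hh
        | cons b h =>
          simp only [List.head?_cons, Option.some.injEq] at hg hh
          simp [hg, hh]
    · intro g hg
      unfold PsiLab at *
      cases g with
      | nil => simp at hg
      | cons a g =>
        simp only [List.head?_cons, Option.some.injEq] at hg
        simp [hg]

variable {A : List G → Prop}

/-- One expansion step of a triple. -/
def expand (φ : G → G) (hA : Adm φ A) (s : {t : Triple G // A t.lab}) (k : ℕ)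
    (hk : k < s.1.lab.length) : {t : Triple G // A t.lab} :=
  ⟨{ tm := s.1.tm.graft k
     lab := clone φ k s.1.lab
     tp := s.1.tp.graft k
     hm := by rw [clone_length φ k _ hk, Tr.leaves_graft, s.1.hm]
     hp := by rw [clone_length φ k _ hk, Tr.leaves_graft, s.1.hp] }, hA.clone _ _ s.2⟩

theorem lift_tp (φ : G → G) (hA : Adm φ A) (s : {t : Triple G // A t.lab}) {W : Tr}
    (h : Ex s.1.tp W) : ∃ t : {t : Triple G // A t.lab}, t.1.tp = W ∧
      EqvGen (fun s t : {t : Triple G // A t.lab} => Exp φ s.1 t.1) s t := by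
  induction h with
  | refl => exact ⟨s, rfl, EqvGen.refl _⟩
  | tail _ h ih =>
    obtain ⟨t, rfl, ht⟩ := ih
    obtain ⟨k, hk, rfl⟩ := h
    rw [← t.1.hp] at hk
    exact ⟨expand φ hA t k hk, rfl, ht.trans _ _ _ (EqvGen.rel _ _ ⟨k, hk, rfl, rfl, rfl⟩)⟩

theorem lift_tm (φ : G → G) (hA : Adm φ A) (s : {t : Triple G // A t.lab}) {W : Tr}
    (h : Ex s.1.tm W) : ∃ t : {t : Triple G // A t.lab}, t.1.tm = W ∧
      EqvGen (fun s t : {t : Triple G // A t.lab} => Exp φ s.1 t.1) s t := by
  induction h with
  | refl => exact ⟨s, rfl, EqvGen.refl _⟩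
  | tail _ h ih =>
    obtain ⟨t, rfl, ht⟩ := ih
    obtain ⟨k, hk, rfl⟩ := h
    rw [← t.1.hm] at hk
    exact ⟨expand φ hA t k hk, rfl, ht.trans _ _ _ (EqvGen.rel _ _ ⟨k, hk, rfl, rfl, rfl⟩)⟩

theorem perm_eqvGen (φ : G ≃* G) (hφ : ∀ g, φ (φ g) = g) {s t : {t : Triple G // A t.lab}}
    (h : EqvGen (fun s t : {t : Triple G // A t.lab} => Exp φ s.1 t.1) s t) :
    perm φ hφ s.1 = perm φ hφ t.1 := by
  induction h with
  | rel _ _ h => exact perm_exp φ hφ h
  | refl _ => rfl
  | symm _ _ _ ih => exact ih.symm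
  | trans _ _ _ _ _ ih1 ih2 => exact ih1.trans ih2

theorem tree_unique (φ : G ≃* G) (hφ : ∀ g, φ (φ g) = g) (T T' : Tr) (g g' : ℕ → G)
    (hl : T.leaves = T'.leaves)
    (h : ∀ k < T.leaves, ∀ p : X G, place φ T k (act (g k) p) = place φ T' k (act (g' k) p)) :
    T = T' ∧ ∀ k < T.leaves, g k = g' k := by
  induction T generalizing T' g g' with
  | leaf =>
    cases T' with
    | leaf =>
      refine ⟨rfl, ?_⟩
      intro k hk
      simp only [Tr.leaves] at hk
      obtain rfl : k = 0 := by omega
      have h1 := h 0 (by simp [Tr.leaves]) (fun _ => false, 1)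
      have h2 := congrArg Prod.snd h1
      simpa [place, act] using h2
    | node l' r' =>
      have := l'.leaves_pos
      have := r'.leaves_pos
      simp only [Tr.leaves] at hl
      omega
  | node l r ihl ihr =>
    have hlp := l.leaves_pos
    have hrp := r.leaves_pos
    cases T' with
    | leaf =>
      simp only [Tr.leaves] at hl
      omega
    | node l' r' =>
      have hlp' := l'.leaves_pos
      have hrp' := r'.leaves_pos
      simp only [Tr.leaves] at hl h
      have hll : l.leaves = l'.leaves := by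
        rcases lt_trichotomy l.leaves l'.leaves with c | c | c
        · exfalso
          have := h l.leaves (by omega) (fun _ => false, 1)
          rw [place_node_ge _ _ _ (by omega), place_node_lt _ _ _ c] at this
          exact A0_ne_A1 _ _ this.symm
        · exact c
        · exfalso
          have := h l'.leaves (by omega) (fun _ => false, 1)
          rw [place_node_lt _ _ _ c, place_node_ge _ _ _ (by omega)] at this
          exact A0_ne_A1 _ _ this
      obtain ⟨rfl, hg1⟩ := ihl l' g g' hll (by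
        intro k hk p
        have := h k (by omega) p
        rw [place_node_lt _ _ _ hk, place_node_lt _ _ _ (by omega)] at this
        exact A0_inj this)
      obtain ⟨rfl, hg2⟩ := ihr r' (fun k => g (l.leaves + k)) (fun k => g' (l.leaves + k))
        (by omega) (by
        intro k hk p
        have := h (l.leaves + k) (by omega) p
        rw [place_node_ge _ _ _ (by omega), place_node_ge _ _ _ (by omega),
          Nat.add_sub_cancel_left] at this
        exact A1_inj hφ this)
      refine ⟨rfl, ?_⟩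
      intro k hk
      simp only [Tr.leaves] at hk
      by_cases c : k < l.leaves
      · exact hg1 k c
      · have := hg2 (k - l.leaves) (by omega)
        simp only [show l.leaves + (k - l.leaves) = k by omega] at this
        exact this

theorem triple_unique (φ : G ≃* G) (hφ : ∀ g, φ (φ g) = g) {s t : Triple G}
    (h1 : s.tp = t.tp) (h2 : perm φ hφ s = perm φ hφ t) : s = t := by
  have hlen : s.lab.length = t.lab.length := by rw [s.hp, t.hp, h1]
  obtain ⟨e1, e2⟩ := tree_unique φ hφ s.tm t.tm (fun k => s.lab.getD k 1)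
    (fun k => t.lab.getD k 1) (by rw [← s.hm, ← t.hm, hlen]) (by
      intro k hk p
      have hks : k < s.lab.length := by rw [s.hm]; exact hk
      have h3 : perm φ hφ s (place φ s.tp k p) = perm φ hφ t (place φ t.tp k p) := by
        rw [h2, h1]
      rwa [perm_place φ hφ s hks, perm_place φ hφ t (by rw [← hlen]; exact hks)] at h3)
  have e3 : s.lab = t.lab := by
    apply List.ext_getElem hlen
    intro k hk hk'
    have := e2 k (by rw [← s.hm]; exact hk)
    rwa [List.getD_eq_getElem _ _ hk, List.getD_eq_getElem _ _ hk'] at this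
  obtain ⟨a, b, c, d, e⟩ := s
  obtain ⟨a', b', c', d', e'⟩ := t
  simp only at h1 e1 e3
  subst h1 e1 e3
  rfl

theorem eqvGen_of_perm (φ : G ≃* G) (hφ : ∀ g, φ (φ g) = g) (hA : Adm φ A)
    {s t : {t : Triple G // A t.lab}} (h : perm φ hφ s.1 = perm φ hφ t.1) :
    EqvGen (fun s t : {t : Triple G // A t.lab} => Exp φ s.1 t.1) s t := by
  obtain ⟨W, h1, h2⟩ := Ex_common s.1.tp t.1.tp
  obtain ⟨s', hs1, hs2⟩ := lift_tp φ hA s h1
  obtain ⟨t', ht1, ht2⟩ := lift_tp φ hA t h2
  have h3 : s'.1 = t'.1 := by
    apply triple_unique φ hφ (hs1.trans ht1.symm)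
    rw [← perm_eqvGen φ hφ hs2, ← perm_eqvGen φ hφ ht2, h]
  have h4 : s' = t' := Subtype.ext h3
  subst h4
  exact hs2.trans _ _ _ (ht2.symm _ _)

theorem eqvGen_iff (φ : G ≃* G) (hφ : ∀ g, φ (φ g) = g) (hA : Adm φ A)
    (s t : {t : Triple G // A t.lab}) :
    EqvGen (fun s t : {t : Triple G // A t.lab} => Exp φ s.1 t.1) s t ↔
      perm φ hφ s.1 = perm φ hφ t.1 :=
  ⟨perm_eqvGen φ hφ, eqvGen_of_perm φ hφ hA⟩

/-- Composable representatives of two triples. -/
theorem exists_comp (φ : G ≃* G) (hφ : ∀ g, φ (φ g) = g) (hA : Adm φ A)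
    (s t : {t : Triple G // A t.lab}) : ∃ s' t' u : {t : Triple G // A t.lab},
      EqvGen (fun s t : {t : Triple G // A t.lab} => Exp φ s.1 t.1) s s' ∧
      EqvGen (fun s t : {t : Triple G // A t.lab} => Exp φ s.1 t.1) t t' ∧
      s'.1.tp = t'.1.tm ∧ u.1.tm = s'.1.tm ∧ u.1.tp = t'.1.tp ∧
      u.1.lab = List.zipWith (· * ·) s'.1.lab t'.1.lab ∧
      perm φ hφ s.1 * perm φ hφ t.1 = perm φ hφ u.1 := by
  obtain ⟨W, h1, h2⟩ := Ex_common s.1.tp t.1.tm
  obtain ⟨s', hs1, hs2⟩ := lift_tp φ hA s h1
  obtain ⟨t', ht1, ht2⟩ := lift_tm φ hA t h2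
  have hlen : s'.1.lab.length = t'.1.lab.length := by rw [s'.1.hp, t'.1.hm, hs1, ht1]
  let u : {t : Triple G // A t.lab} :=
    ⟨{ tm := s'.1.tm
       lab := List.zipWith (· * ·) s'.1.lab t'.1.lab
       tp := t'.1.tp
       hm := by rw [List.length_zipWith, ← hlen, Nat.min_self, s'.1.hm]
       hp := by rw [List.length_zipWith, hlen, Nat.min_self, t'.1.hp] },
      hA.mul _ _ s'.2 t'.2⟩
  refine ⟨s', t', u, hs2, ht2, hs1.trans ht1.symm, rfl, rfl, rfl, ?_⟩
  rw [perm_eqvGen φ hφ hs2, perm_eqvGen φ hφ ht2]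
  exact perm_mul φ hφ (hs1.trans ht1.symm) rfl rfl rfl

theorem GA : GA_stm := by
  intro G _ φ hφ A hA' Γ _ cls hcls
  have hA : Adm φ A := adm φ hA'
  have hwd : ∀ s t : {t : Triple G // A t.lab}, cls s = cls t ↔
      perm φ hφ s.1 = perm φ hφ t.1 := by
    intro s t
    rw [hcls.eq_iff s t]
    exact eqvGen_iff φ hφ hA s t
  choose sec hsec using hcls.surj
  have hρ : ∀ t : {t : Triple G // A t.lab}, perm φ hφ (sec (cls t)).1 = perm φ hφ t.1 :=
    fun t => (hwd _ _).1 (hsec (cls t))
  let ρ : Γ →* Equiv.Perm (X G) := MonoidHom.mk' (fun γ => perm φ hφ (sec γ).1) (by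
    intro a b
    obtain ⟨s, rfl⟩ := hcls.surj a
    obtain ⟨t, rfl⟩ := hcls.surj b
    obtain ⟨s', t', u, h1, h2, h3, h4, h5, h6, h7⟩ := exists_comp φ hφ hA s t
    have e1 : cls s = cls s' := (hcls.eq_iff s s').2 h1
    have e2 : cls t = cls t' := (hcls.eq_iff t t').2 h2
    have e3 : cls s * cls t = cls u := by
      rw [e1, e2]
      exact hcls.mul s' t' u h3 h4 h5 h6
    change perm φ hφ (sec (cls s * cls t)).1 = _
    rw [e3, hρ, hρ, hρ, h7])
  have hρ' : ∀ t, ρ (cls t) = perm φ hφ t.1 := hρ
  refine ⟨ρ, ?_, ?_⟩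
  · intro a b hab
    obtain ⟨s, rfl⟩ := hcls.surj a
    obtain ⟨t, rfl⟩ := hcls.surj b
    rw [hρ', hρ'] at hab
    exact (hwd s t).2 hab
  · intro t k hk p
    rw [hρ', perm_place φ hφ t.1 hk, List.getD_eq_getElem _ _ hk]

theorem GC : GC_stm := by
  intro G _ φ hφ A hA'
  have hA : Adm φ A := adm φ hA'
  let Γ : Subgroup (Equiv.Perm (X G)) :=
    { carrier := {e | ∃ t : {t : Triple G // A t.lab}, e = perm φ hφ t.1}
      mul_mem' := by
        rintro _ _ ⟨s, rfl⟩ ⟨t, rfl⟩
        obtain ⟨s', t', u, _, _, _, _, _, _, h7⟩ := exists_comp φ hφ hA s t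
        exact ⟨u, h7⟩
      one_mem' := by
        refine ⟨⟨⟨.leaf, [1], .leaf, rfl, rfl⟩, hA.one⟩, ?_⟩
        apply perm_ext φ hφ .leaf
        intro k hk p
        simp only [Tr.leaves] at hk
        obtain rfl : k = 0 := by omega
        have := perm_place φ hφ (⟨.leaf, [1], .leaf, rfl, rfl⟩ : Triple G)
          (k := 0) (by simp) p
        rw [this]
        simp [place, act_one]
      inv_mem' := by
        rintro _ ⟨t, rfl⟩
        exact ⟨⟨t.1.inv, hA.inv _ t.2⟩, (perm_inv φ hφ t.1).symm⟩ }
  refine ⟨Γ, inferInstance, fun t => ⟨perm φ hφ t.1, t, rfl⟩, ?_, ?_, ?_⟩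
  · rintro ⟨_, t, rfl⟩
    exact ⟨t, rfl⟩
  · intro s t
    rw [eqvGen_iff φ hφ hA s t]
    exact Subtype.mk_eq_mk
  · intro r s t h1 h2 h3 h4
    exact Subtype.ext (perm_mul φ hφ h1 h2 h3 h4)

end Pool.Agent.R288.CL
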