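import Pool.Agent.R288.CL.Stm

/-!
# MP_335bcb_an, piece GB: the elements `s_m`, `t_m`
-/

set_option autoImplicit false

namespace Pool.Agent.R288.CL.GBp

open Pool.Agent.R288.CL Equiv

variable {G : Type} [Group G]

lemma cons_inj {i : Bool} {x y : ℕ → Bool} (h : cons i x = cons i y) : x = y := by
  funext n
  exact congrFun h (n + 1)

lemma A0_inj {p q : X G} (h : A0 p = A0 q) : p = q := by
  unfold A0 at h
  rw [Prod.mk.injEq] at h
  exact Prod.ext (cons_inj h.1) h.2

lemma A1_inj (φ : G ≃* G) {p q : X G} (h : A1 φ p = A1 φ q) : p = q := by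
  unfold A1 at h
  rw [Prod.mk.injEq] at h
  exact Prod.ext (cons_inj h.1) (φ.injective h.2)

lemma A0_ne_A1 (φ : G ≃* G) (p q : X G) : A0 p ≠ A1 φ q := by
  intro h
  unfold A0 A1 at h
  rw [Prod.mk.injEq] at h
  have := congrFun h.1 0
  simp [cons] at this

lemma cover (φ : G ≃* G) (p : X G) : (∃ q, p = A0 q) ∨ ∃ q, p = A1 φ q := by
  obtain ⟨x, g⟩ := p
  cases hx : x 0 with
  | false =>
    left
    refine ⟨(fun n => x (n + 1), g), ?_⟩
    unfold A0
    refine Prod.ext ?_ rfl
    funext n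
    cases n with
    | zero => simpa [cons] using hx
    | succ n => rfl
  | true =>
    right
    refine ⟨(fun n => x (n + 1), φ.symm g), ?_⟩
    unfold A1
    refine Prod.ext ?_ (by simp)
    funext n
    cases n with
    | zero => simpa [cons] using hx
    | succ n => rfl

lemma half_bij (φ : G ≃* G) : Function.Bijective (Sum.elim A0 (A1 φ) : X G ⊕ X G → X G) := by
  constructor
  · rintro (a | a) (b | b) h
    · exact congrArg _ (A0_inj h)
    · exact absurd h (A0_ne_A1 φ a b)
    · exact absurd h.symm (A0_ne_A1 φ b a)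
    · exact congrArg _ (A1_inj φ h)
  · intro p
    rcases cover φ p with ⟨q, rfl⟩ | ⟨q, rfl⟩
    · exact ⟨Sum.inl q, rfl⟩
    · exact ⟨Sum.inr q, rfl⟩

/-- the decomposition into two halves -/
noncomputable def half (φ : G ≃* G) : X G ⊕ X G ≃ X G := Equiv.ofBijective _ (half_bij φ)

lemma half_inl (φ : G ≃* G) (p : X G) : half φ (Sum.inl p) = A0 p := rfl
lemma half_inr (φ : G ≃* G) (p : X G) : half φ (Sum.inr p) = A1 φ p := rfl
lemma half_symm0 (φ : G ≃* G) (p : X G) : (half φ).symm (A0 p) = Sum.inl p := by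
  rw [Equiv.symm_apply_eq]; rfl
lemma half_symm1 (φ : G ≃* G) (p : X G) : (half φ).symm (A1 φ p) = Sum.inr p := by
  rw [Equiv.symm_apply_eq]; rfl

/-- two permutations side by side -/
noncomputable def sm (φ : G ≃* G) (f h : Perm (X G)) : Perm (X G) :=
  (half φ).symm.trans ((Equiv.sumCongr f h).trans (half φ))

lemma sm0 (φ : G ≃* G) (f h : Perm (X G)) (p : X G) : sm φ f h (A0 p) = A0 (f p) := by
  simp [sm, half_symm0, half_inl]

lemma sm1 (φ : G ≃* G) (f h : Perm (X G)) (p : X G) : sm φ f h (A1 φ p) = A1 φ (h p) := by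
  simp [sm, half_symm1, half_inr]

lemma perm_ext (φ : G ≃* G) {f h : Perm (X G)} (h0 : ∀ p, f (A0 p) = h (A0 p))
    (h1 : ∀ p, f (A1 φ p) = h (A1 φ p)) : f = h := by
  apply Equiv.ext
  intro p
  rcases cover φ p with ⟨q, rfl⟩ | ⟨q, rfl⟩
  · exact h0 q
  · exact h1 q

lemma sm_mul (φ : G ≃* G) (f h f' h' : Perm (X G)) :
    sm φ f h * sm φ f' h' = sm φ (f * f') (h * h') := by
  apply perm_ext φ
  · intro p; simp only [Perm.mul_apply, sm0]
  · intro p; simp only [Perm.mul_apply, sm1]

lemma sm_one (φ : G ≃* G) : sm φ 1 1 = 1 := by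
  apply perm_ext φ
  · intro p; simp only [sm0, Perm.one_apply]
  · intro p; simp only [sm1, Perm.one_apply]

lemma sm_inj (φ : G ≃* G) {f h f' h' : Perm (X G)} (e : sm φ f h = sm φ f' h') :
    f = f' ∧ h = h' := by
  constructor
  · apply Equiv.ext
    intro p
    have := congrArg (fun F : Perm (X G) => F (A0 p)) e
    simp only [sm0] at this
    exact A0_inj this
  · apply Equiv.ext
    intro p
    have := congrArg (fun F : Perm (X G) => F (A1 φ p)) e
    simp only [sm1] at this
    exact A1_inj φ this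

/-- `f` acting in the cone `0^m 1` -/
noncomputable def e (φ : G ≃* G) : ℕ → Perm (X G) → Perm (X G)
  | 0, f => sm φ 1 f
  | m + 1, f => sm φ (e φ m f) 1

lemma e_mul (φ : G ≃* G) (m : ℕ) (f h : Perm (X G)) :
    e φ m (f * h) = e φ m f * e φ m h := by
  induction m with
  | zero => simp only [e, sm_mul, mul_one]
  | succ m ih => simp only [e, sm_mul, mul_one, ih]

lemma e_one (φ : G ≃* G) (m : ℕ) : e φ m (1 : Perm (X G)) = 1 := by
  induction m with
  | zero => exact sm_one φ
  | succ m ih => simp only [e, ih]; exact sm_one φ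

/-- the homomorphism -/
noncomputable def eh (φ : G ≃* G) (m : ℕ) : Perm (X G) →* Perm (X G) where
  toFun := e φ m
  map_one' := e_one φ m
  map_mul' := e_mul φ m

lemma e_inj (φ : G ≃* G) (m : ℕ) {f h : Perm (X G)} (hf : e φ m f = e φ m h) : f = h := by
  induction m with
  | zero => exact (sm_inj φ hf).2
  | succ m ih => exact ih (sm_inj φ hf).1

lemma e_comm (φ : G ≃* G) {m n : ℕ} (hmn : m ≠ n) (f h : Perm (X G)) :
    Commute (e φ m f) (e φ n h) := by
  induction m generalizing n with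
  | zero =>
    cases n with
    | zero => exact absurd rfl hmn
    | succ n => simp only [e, Commute, SemiconjBy, sm_mul, mul_one, one_mul]
  | succ m ih =>
    cases n with
    | zero => simp only [e, Commute, SemiconjBy, sm_mul, mul_one, one_mul]
    | succ n =>
      have := ih (n := n) (fun h => hmn (by rw [h]))
      simp only [Commute, SemiconjBy] at this
      simp only [e, Commute, SemiconjBy, sm_mul, mul_one, this]

/-- iterated left cone -/
def Z (G : Type) (b : ℕ) (p : X G) : X G := (A0)^[b] p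

lemma Z_succ (b : ℕ) (p : X G) : Z G (b + 1) p = A0 (Z G b p) := by
  unfold Z; rw [Function.iterate_succ_apply']

lemma Z_zero (p : X G) : Z G 0 p = p := rfl

lemma Z_inj {b : ℕ} {p q : X G} (h : Z G b p = Z G b q) : p = q := by
  induction b with
  | zero => exact h
  | succ b ih => rw [Z_succ, Z_succ] at h; exact ih (A0_inj h)

lemma e_Z (φ : G ≃* G) (j b : ℕ) (f : Perm (X G)) (p : X G) :
    e φ (j + b) f (Z G b p) = Z G b (e φ j f p) := by
  induction b with
  | zero => rfl
  | succ b ih =>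
    rw [Z_succ, Z_succ, ← ih, show j + (b + 1) = (j + b) + 1 by ring]
    exact sm0 φ _ _ _

lemma e_out (φ : G ≃* G) (j b : ℕ) (f : Perm (X G)) (q : X G) (hq : ∀ p, q ≠ Z G b p) :
    e φ (j + b) f q = q := by
  induction b generalizing q with
  | zero => exact absurd rfl (hq q)
  | succ b ih =>
    rw [show j + (b + 1) = (j + b) + 1 by ring]
    rcases cover φ q with ⟨r, rfl⟩ | ⟨r, rfl⟩
    · have h1 := ih r (fun p hp => hq p (by rw [Z_succ, hp]))
      simp only [e, sm0, h1]
    · simp only [e, sm1, Perm.one_apply]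

/-- `e m f` acts as `f` in the cone `0^m 1` -/
lemma e_cone (φ : G ≃* G) (m : ℕ) (f : Perm (X G)) (p : X G) :
    e φ m f (Z G m (A1 φ p)) = Z G m (A1 φ (f p)) := by
  have h := e_Z φ 0 m f (A1 φ p)
  rw [zero_add] at h
  rw [h]
  simp only [e, sm1]

/-- `e n f` fixes the cone `0^m 1` for `n ≠ m` -/
lemma e_fix (φ : G ≃* G) {m n : ℕ} (hmn : n ≠ m) (f : Perm (X G)) (p : X G) :
    e φ n f (Z G m (A1 φ p)) = Z G m (A1 φ p) := by
  induction m generalizing n with
  | zero =>
    cases n with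
    | zero => exact absurd rfl hmn
    | succ n => simp only [Z_zero, e, sm1, Perm.one_apply]
  | succ m ih =>
    rw [Z_succ]
    cases n with
    | zero => simp only [e, sm0, Perm.one_apply]
    | succ n =>
      have := ih (n := n) (fun h => hmn (by rw [h]))
      simp only [e, sm0, this]

/-! ### the permutation `sigma` -/

/-- `0 ↦ 00`, `10 ↦ 010`, `110 ↦ 011`, `111 ↦ 1` -/
noncomputable def sg (φ : G ≃* G) : Perm (X G) :=
  (((half φ).symm.trans (Equiv.sumCongr (Equiv.refl _)
    ((half φ).symm.trans (Equiv.sumCongr (Equiv.refl _) (half φ).symm)))).trans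
   ((Equiv.sumCongr (Equiv.refl _) (Equiv.sumAssoc _ _ _).symm).trans
      (Equiv.sumAssoc _ _ _).symm)).trans
  ((Equiv.sumCongr ((Equiv.sumCongr (Equiv.refl _) (half φ)).trans (half φ))
    (Equiv.refl _)).trans (half φ))

lemma sg0 (φ : G ≃* G) (p : X G) : sg φ (A0 p) = A0 (A0 p) := by
  simp [sg, half_symm0, half_inl]

lemma sg10 (φ : G ≃* G) (p : X G) : sg φ (A1 φ (A0 p)) = A0 (A1 φ (A0 p)) := by
  simp [sg, half_symm0, half_symm1, half_inl, half_inr]

lemma sg110 (φ : G ≃* G) (p : X G) : sg φ (A1 φ (A1 φ (A0 p))) = A0 (A1 φ (A1 φ p)) := by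
  simp [sg, half_symm0, half_symm1, half_inl, half_inr]

lemma sg111 (φ : G ≃* G) (p : X G) : sg φ (A1 φ (A1 φ (A1 φ p))) = A1 φ p := by
  simp [sg, half_symm1, half_inr]

lemma act_A0 (h : G) (p : X G) : act h (A0 p) = A0 (act h p) := rfl

lemma act_A1 (φ : G ≃* G) (h2 : ∀ g, φ (φ g) = g) (h : G) (p : X G) :
    act h (A1 φ p) = A1 φ (act (φ h) p) := by
  unfold act A1
  refine Prod.ext rfl ?_
  simp only [map_mul, h2]

lemma sg_act (φ : G ≃* G) (h2 : ∀ g, φ (φ g) = g) (h : G) (p : X G) :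
    sg φ (act h p) = act h (sg φ p) := by
  rcases cover φ p with ⟨q, rfl⟩ | ⟨q, rfl⟩
  · simp only [act_A0, sg0]
  · rcases cover φ q with ⟨r, rfl⟩ | ⟨r, rfl⟩
    · simp only [act_A0, act_A1 φ h2, sg10]
    · rcases cover φ r with ⟨r, rfl⟩ | ⟨r, rfl⟩
      · simp only [act_A0, act_A1 φ h2, sg110]
      · simp only [act_A1 φ h2, sg111, h2]

lemma e_act (φ : G ≃* G) (h2 : ∀ g, φ (φ g) = g) (f : Perm (X G))
    (hf : ∀ h p, f (act h p) = act h (f p)) (j : ℕ) (h : G) (p : X G) :
    e φ j f (act h p) = act h (e φ j f p) := by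
  induction j generalizing h p with
  | zero =>
    rcases cover φ p with ⟨q, rfl⟩ | ⟨q, rfl⟩
    · simp only [e, act_A0, sm0, Perm.one_apply]
    · simp only [e, act_A1 φ h2, sm1, hf]
  | succ j ih =>
    rcases cover φ p with ⟨q, rfl⟩ | ⟨q, rfl⟩
    · simp only [e, act_A0, sm0, ih]
    · simp only [e, act_A1 φ h2, sm1, Perm.one_apply]

/-! ### trees -/

lemma leaves_pos (T : Tr) : 0 < T.leaves := by
  induction T with
  | leaf => exact one_pos
  | node l r ihl _ => simp only [Tr.leaves]; omega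

lemma place_cover (φ : G ≃* G) (T : Tr) (x : X G) :
    ∃ k < T.leaves, ∃ p, x = place φ T k p := by
  induction T generalizing x with
  | leaf => exact ⟨0, one_pos, x, rfl⟩
  | node l r ihl ihr =>
    rcases cover φ x with ⟨q, rfl⟩ | ⟨q, rfl⟩
    · obtain ⟨k, hk, p, hp⟩ := ihl q
      refine ⟨k, by simp only [Tr.leaves]; omega, p, ?_⟩
      simp only [place, hk, if_true, ← hp]
    · obtain ⟨k, hk, p, hp⟩ := ihr q
      refine ⟨l.leaves + k, by simp only [Tr.leaves]; omega, p, ?_⟩
      have h1 : ¬ (l.leaves + k < l.leaves) := by omega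
      simp only [place, h1, if_false, Nat.add_sub_cancel_left, ← hp]

lemma place_disj (φ : G ≃* G) (T : Tr) (k : ℕ) (p q : X G)
    (h : place φ T k p = place φ T 0 q) (hk : k < T.leaves) : k = 0 := by
  induction T generalizing k with
  | leaf => simpa [Tr.leaves] using hk
  | node l r ihl ihr =>
    have hl := leaves_pos l
    simp only [place, hl, if_true] at h
    by_cases hkl : k < l.leaves
    · simp only [hkl, if_true] at h
      exact ihl k (A0_inj h) hkl
    · simp only [hkl, if_false] at h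
      exact absurd h.symm (A0_ne_A1 φ _ _)

lemma place_zero (φ : G ≃* G) (T : Tr) : ∃ b, ∀ p : X G, place φ T 0 p = Z G b p := by
  induction T with
  | leaf => exact ⟨0, fun p => rfl⟩
  | node l r ihl _ =>
    obtain ⟨b, hb⟩ := ihl
    refine ⟨b + 1, fun p => ?_⟩
    simp only [place, leaves_pos l, if_true, hb, Z_succ]

/-- permutations given by a pair of trees -/
def IsF (φ : G ≃* G) (f : Perm (X G)) : Prop :=
  ∃ T' T : Tr, T'.leaves = T.leaves ∧ ∀ k < T.leaves, ∀ p, f (place φ T k p) = place φ T' k p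

lemma isF_sm0 (φ : G ≃* G) {f : Perm (X G)} (hf : IsF φ f) : IsF φ (sm φ f 1) := by
  obtain ⟨T', T, hT, h⟩ := hf
  refine ⟨.node T' .leaf, .node T .leaf, by simp only [Tr.leaves, hT], ?_⟩
  intro k _ p
  by_cases hk : k < T.leaves
  · simp only [place, hT, hk, if_true, sm0, h k hk]
  · simp only [place, hT, hk, if_false, sm1, Perm.one_apply]

lemma isF_sm1 (φ : G ≃* G) {f : Perm (X G)} (hf : IsF φ f) : IsF φ (sm φ 1 f) := by
  obtain ⟨T', T, hT, h⟩ := hf
  refine ⟨.node .leaf T', .node .leaf T, by simp only [Tr.leaves, hT], ?_⟩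
  intro k hk p
  simp only [Tr.leaves] at hk
  by_cases hk1 : k < 1
  · simp only [place, Tr.leaves, hk1, if_true, sm0, Perm.one_apply]
  · simp only [place, Tr.leaves, hk1, if_false, sm1]
    rw [h (k - 1) (by omega)]

lemma isF_e (φ : G ≃* G) {f : Perm (X G)} (hf : IsF φ f) (m : ℕ) : IsF φ (e φ m f) := by
  induction m with
  | zero => exact isF_sm1 φ hf
  | succ m ih => exact isF_sm0 φ ih

lemma isF_sg (φ : G ≃* G) : IsF φ (sg φ) := by
  refine ⟨.node (.node .leaf (.node .leaf .leaf)) .leaf,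
    .node .leaf (.node .leaf (.node .leaf .leaf)), rfl, ?_⟩
  intro k hk p
  simp only [Tr.leaves] at hk
  interval_cases k
  · simp [place, Tr.leaves, sg0]
  · simp [place, Tr.leaves, sg10]
  · simp [place, Tr.leaves, sg110]
  · simp [place, Tr.leaves, sg111]

/-- the point `1 1 1 ...` -/
def pt (G : Type) [Group G] : X G := (fun _ => true, 1)

lemma pt_ne (q : X G) : A0 q ≠ pt G := by
  intro h
  have := congrFun (congrArg Prod.fst h) 0
  simp [A0, cons, pt] at this

lemma sg_pow (φ : G ≃* G) (k : ℕ) (p : X G) : (sg φ ^ k) (A0 p) = A0 (Z G k p) := by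
  induction k with
  | zero => rfl
  | succ k ih => rw [pow_succ', Perm.mul_apply, ih, sg0, Z_succ]

lemma sg_ord (φ : G ≃* G) (k : ℤ) (h : (sg φ : Perm (X G)) ^ k = 1) : k = 0 := by
  have key : ∀ n : ℕ, (sg φ : Perm (X G)) ^ n = 1 → n = 0 := by
    intro n hn
    cases n with
    | zero => rfl
    | succ n =>
      exfalso
      have h1 := sg_pow φ (n + 1) (pt G)
      rw [hn, Perm.one_apply] at h1
      have h2 := A0_inj h1
      rw [Z_succ] at h2
      exact pt_ne _ h2.symm
  rcases Int.eq_nat_or_neg k with ⟨n, rfl | rfl⟩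
  · rw [zpow_natCast] at h
    rw [key n h]; rfl
  · rw [zpow_neg, inv_eq_one, zpow_natCast] at h
    rw [key n h]; rfl

end Pool.Agent.R288.CL.GBp

namespace Pool.Agent.R288.CL

open GBp Equiv

theorem GB : GB_stm := by
  intro G _ φ h2 A hA Γ _ cls hsurj ρ hρ hact
  -- existence of elements
  have hAone : ∀ n, 0 < n → A (List.replicate n 1) := by
    intro n hn
    rcases hA with rfl | rfl
    · trivial
    · obtain ⟨m, rfl⟩ : ∃ m, n = m + 1 := ⟨n - 1, by omega⟩
      simp [PsiLab, List.replicate_succ]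
  have hex : ∀ f : Perm (X G), IsF φ f → ∃ γ, ρ γ = f := by
    rintro f ⟨T', T, hT, hf⟩
    refine ⟨cls ⟨⟨T', List.replicate T.leaves 1, T, by simp [hT], by simp⟩,
      hAone _ (leaves_pos T)⟩, ?_⟩
    apply Equiv.ext
    intro x
    obtain ⟨k, hk, p, rfl⟩ := place_cover φ T x
    rw [hf k hk]
    have := hact ⟨⟨T', List.replicate T.leaves 1, T, by simp [hT], by simp⟩,
      hAone _ (leaves_pos T)⟩ k (by simpa using hk) p
    simp only [List.getElem_replicate] at this
    rw [this]
    simp [act]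
  have hsg := isF_sg φ
  have hth : IsF φ (e φ 0 (sg φ)) := isF_e φ hsg 0
  have hs : ∀ m, ∃ γ, ρ γ = e φ (m + 1) (sg φ) := fun m => hex _ (isF_e φ hsg _)
  have ht : ∀ m, ∃ γ, ρ γ = e φ (m + 1) (e φ 0 (sg φ)) := fun m => hex _ (isF_e φ hth _)
  choose s hs using hs
  choose t ht using ht
  have hsgact : ∀ h p, sg φ (act h p) = act h (sg φ p) := sg_act φ h2
  have hthact : ∀ h p, e φ 0 (sg φ) (act h p) = act h (e φ 0 (sg φ) p) :=
    e_act φ h2 _ hsgact 0
  -- theta
  have th0 : ∀ p, e φ 0 (sg φ) (A0 p) = A0 p := fun p => sm0 φ 1 _ p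
  have th1 : ∀ p, e φ 0 (sg φ) (A1 φ p) = A1 φ (sg φ p) := fun p => sm1 φ 1 _ p
  have thi0 : ∀ p, (e φ 0 (sg φ))⁻¹ (A0 p) = A0 p := fun p => by
    rw [Perm.inv_eq_iff_eq, th0]
  have sgi0 : ∀ p, (sg φ)⁻¹ (A0 (A0 p)) = A0 p := fun p => by
    rw [Perm.inv_eq_iff_eq, sg0]
  -- transfer
  have htr : ∀ x y : Γ, ∀ f h : Perm (X G), ρ x = e φ 1 f → ρ y = e φ 1 h → x = y → f = h := by
    intro x y f h hx hy hxy
    apply e_inj φ 1
    rw [← hx, ← hy, hxy]
  have einv : ∀ m (f : Perm (X G)), (e φ m f)⁻¹ = e φ m f⁻¹ := fun m f =>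
    (map_inv (eh φ m) f).symm
  -- the shifting element
  have hg0 : ∃ g : Γ, (∀ p, ρ g (A0 p) = A0 (A0 p)) ∧ (∀ p, ρ g (A1 φ (A0 p)) = A0 (A1 φ p)) ∧
      (∀ p, ρ g (A1 φ (A1 φ p)) = A1 φ p) := by
    refine ⟨cls ⟨⟨.node (.node .leaf .leaf) .leaf, List.replicate 3 1,
      .node .leaf (.node .leaf .leaf), rfl, rfl⟩, hAone _ (by norm_num)⟩, ?_, ?_, ?_⟩
    · intro p
      have := hact ⟨⟨.node (.node .leaf .leaf) .leaf, List.replicate 3 1,
        .node .leaf (.node .leaf .leaf), rfl, rfl⟩, hAone _ (by norm_num)⟩ 0 (by simp) p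
      simpa [place, Tr.leaves, act] using this
    · intro p
      have := hact ⟨⟨.node (.node .leaf .leaf) .leaf, List.replicate 3 1,
        .node .leaf (.node .leaf .leaf), rfl, rfl⟩, hAone _ (by norm_num)⟩ 1 (by simp) p
      simpa [place, Tr.leaves, act] using this
    · intro p
      have := hact ⟨⟨.node (.node .leaf .leaf) .leaf, List.replicate 3 1,
        .node .leaf (.node .leaf .leaf), rfl, rfl⟩, hAone _ (by norm_num)⟩ 2 (by simp) p
      simpa [place, Tr.leaves, act] using this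
  obtain ⟨g0, g00, g10, g11⟩ := hg0
  have hshift : ∀ (f : Perm (X G)) (m : ℕ), ρ g0 * e φ (m + 1) f = e φ (m + 2) f * ρ g0 := by
    intro f m
    apply perm_ext φ
    · intro p
      simp only [Perm.mul_apply, e, sm0, g00]
    · intro q
      rcases cover φ q with ⟨r, rfl⟩ | ⟨r, rfl⟩
      · simp only [Perm.mul_apply, e, sm1, sm0, g10, Perm.one_apply]
      · simp only [Perm.mul_apply, e, sm1, g11, Perm.one_apply]
  refine ⟨s, t, ?_⟩
  refine
    { comm_ss := ?_
      comm_tt := ?_
      comm_st := ?_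
      indep := ?_
      ord := ?_
      w1 := ?_
      w2 := ?_
      w3 := ?_
      w4 := ?_
      shift := ?_
      conj := ?_ }
  · intro m n hmn
    apply hρ
    rw [map_mul, map_mul, hs, hs]
    exact e_comm φ (by omega) _ _
  · intro m n hmn
    apply hρ
    rw [map_mul, map_mul, ht, ht]
    exact e_comm φ (by omega) _ _
  · intro m n hmn
    apply hρ
    rw [map_mul, map_mul, hs, ht]
    exact e_comm φ (by omega) _ _
  · intro m
    rw [Subgroup.disjoint_def]
    intro x hx1 hx2
    have hr : ρ x ∈ (eh φ (m + 1)).range := by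
      have hle : Subgroup.closure {s m, t m} ≤ ((eh φ (m + 1)).range).comap ρ := by
        rw [Subgroup.closure_le]
        rintro y hy
        simp only [Set.mem_insert_iff, Set.mem_singleton_iff] at hy
        rcases hy with rfl | rfl
        · exact ⟨_, (hs m).symm⟩
        · exact ⟨_, (ht m).symm⟩
      exact hle hx1
    have hfix : ∀ p, ρ x (Z G (m + 1) (A1 φ p)) = Z G (m + 1) (A1 φ p) := by
      clear hr hx1
      induction hx2 using Subgroup.closure_induction with
      | mem y hy =>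
        obtain ⟨n, hn, rfl | rfl⟩ := hy
        · intro p; rw [hs]; exact e_fix φ (by omega) _ _
        · intro p; rw [ht]; exact e_fix φ (by omega) _ _
      | one => intro p; simp
      | mul y z _ _ hy hz => intro p; rw [map_mul, Perm.mul_apply, hz, hy]
      | inv y _ hy => intro p; rw [map_inv, Perm.inv_eq_iff_eq, hy]
    obtain ⟨f, hf⟩ := hr
    have hf1 : f = 1 := by
      apply Equiv.ext
      intro p
      have h1 := hfix p
      rw [← hf] at h1
      have h3 : (eh φ (m + 1)) f (Z G (m + 1) (A1 φ p)) = Z G (m + 1) (A1 φ (f p)) :=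
        e_cone φ (m + 1) f p
      rw [h3] at h1
      exact A1_inj φ (Z_inj h1)
    apply hρ
    rw [← hf, hf1, map_one, map_one]
  · intro k hk
    have h1 := congrArg ρ hk
    rw [map_zpow, hs, map_one] at h1
    have h3 : (eh φ 1) (sg φ ^ k) = 1 := by rw [map_zpow]; exact h1
    have h4 : e φ 1 (sg φ ^ k) = e φ 1 1 := h3.trans (e_one φ 1).symm
    exact sg_ord φ k (e_inj φ 1 h4)
  · intro h
    have := htr _ _ (sg φ * e φ 0 (sg φ)) (e φ 0 (sg φ) * sg φ)
      (by rw [map_mul, hs, ht, e_mul]) (by rw [map_mul, hs, ht, e_mul]) h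
    have h3 := congrArg (fun F : Perm (X G) => F (A1 φ (A0 (pt G)))) this
    simp only [Perm.mul_apply, th1, sg0, sg10, th0] at h3
    exact pt_ne _ (A0_inj (A1_inj φ (A0_inj h3)))
  · intro h
    have := htr _ _ (sg φ * e φ 0 (sg φ)) (e φ 0 (sg φ) * (sg φ)⁻¹)
      (by rw [map_mul, hs, ht, e_mul]) (by rw [map_mul, map_inv, hs, ht, einv, e_mul]) h
    have h3 := congrArg (fun F : Perm (X G) => F (A0 (A0 (pt G)))) this
    simp only [Perm.mul_apply, sg0, th0, sgi0] at h3
    exact pt_ne _ (A0_inj h3)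
  · intro h
    have := htr _ _ (sg φ * e φ 0 (sg φ)) ((e φ 0 (sg φ))⁻¹ * sg φ)
      (by rw [map_mul, hs, ht, e_mul]) (by rw [map_mul, map_inv, hs, ht, einv, e_mul]) h
    have h3 := congrArg (fun F : Perm (X G) => F (A1 φ (A0 (pt G)))) this
    simp only [Perm.mul_apply, th1, sg0, sg10, thi0] at h3
    exact pt_ne _ (A0_inj (A1_inj φ (A0_inj h3)))
  · intro h
    have := htr _ _ (sg φ * e φ 0 (sg φ)) ((e φ 0 (sg φ))⁻¹ * (sg φ)⁻¹)
      (by rw [map_mul, hs, ht, e_mul])
      (by rw [map_mul, map_inv, map_inv, hs, ht, e_mul, ← einv, ← einv]) h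
    have h3 := congrArg (fun F : Perm (X G) => F (A0 (A0 (pt G)))) this
    simp only [Perm.mul_apply, sg0, th0, sgi0, thi0] at h3
    exact pt_ne _ (A0_inj h3)
  · intro m
    induction m with
    | zero => exact ⟨1, by simp, by simp⟩
    | succ m ih =>
      obtain ⟨g, hg1, hg2⟩ := ih
      refine ⟨g0 * g, ?_, ?_⟩
      · have h3 : s (m + 1) = g0 * s m * g0⁻¹ := by
          rw [eq_mul_inv_iff_mul_eq]
          apply hρ
          rw [map_mul, map_mul, hs, hs]
          exact (hshift _ _).symm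
        rw [h3, hg1]; group
      · have h3 : t (m + 1) = g0 * t m * g0⁻¹ := by
          rw [eq_mul_inv_iff_mul_eq]
          apply hρ
          rw [map_mul, map_mul, ht, ht]
          exact (hshift _ _).symm
        rw [h3, hg2]; group
  · intro g
    obtain ⟨u, rfl⟩ := hsurj g
    obtain ⟨b, hb⟩ := place_zero φ u.1.tp
    obtain ⟨a, ha⟩ := place_zero φ u.1.tm
    have hlen : 0 < u.1.lab.length := by rw [u.1.hp]; exact leaves_pos _
    have key : ∀ f : Perm (X G), (∀ h p, f (act h p) = act h (f p)) → ∀ m,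
        ρ (cls u) * e φ (m + b + 1) f = e φ (m + a + 1) f * ρ (cls u) := by
      intro f hf m
      apply Equiv.ext
      intro x
      obtain ⟨k, hk, p, rfl⟩ := place_cover φ u.1.tp x
      rw [Perm.mul_apply, Perm.mul_apply]
      have hk' : k < u.1.lab.length := by rw [u.1.hp]; exact hk
      rcases Nat.eq_zero_or_pos k with rfl | hkp
      · rw [hact u 0 hk' p, hb, ha, show m + b + 1 = (m + 1) + b by ring,
          show m + a + 1 = (m + 1) + a by ring, e_Z, e_Z, ← hb, hact u 0 hk', ha,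
          e_act φ h2 f hf]
      · rw [show m + b + 1 = (m + 1) + b by ring, show m + a + 1 = (m + 1) + a by ring,
          e_out φ (m + 1) b f, hact u k hk', e_out φ (m + 1) a f]
        · intro q hq
          rw [← ha] at hq
          have := place_disj φ _ k _ _ hq (by rw [← u.1.hm]; exact hk')
          omega
        · intro q hq
          rw [← hb] at hq
          have := place_disj φ _ k _ _ hq hk
          omega
    refine ⟨a, b, fun m => ⟨?_, ?_⟩⟩
    · rw [mul_inv_eq_iff_eq_mul]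
      apply hρ
      rw [map_mul, map_mul, hs, hs]
      exact key _ hsgact m
    · rw [mul_inv_eq_iff_eq_mul]
      apply hρ
      rw [map_mul, map_mul, ht, ht]
      exact key _ hthact m

end Pool.Agent.R288.CL
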