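import Mathlib
import Pool.Agent.R288.CL.Defs

/-!
# MP_335bcb_an: operator algebraic part, basic facts
-/

set_option autoImplicit false

open Filter Topology
open scoped InnerProductSpace

namespace Pool.Agent.R288.CL

/-- an abstract form of a group von Neumann algebra with its trace vector -/
structure GS (A H Γ : Type) [CStarAlgebra A] [NormedAddCommGroup H] [InnerProductSpace ℂ H]
    [Group Γ] where
  ev : A →L[ℂ] H
  L : Γ →* A
  star_L : ∀ g, star (L g) = L g⁻¹
  orth : Orthonormal ℂ fun g => ev (L g)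
  inner_ev : ∀ x y, ⟪ev x, ev y⟫_ℂ = ⟪ev 1, ev (star x * y)⟫_ℂ
  tr : ∀ x y, ⟪ev 1, ev (x * y)⟫_ℂ = ⟪ev 1, ev (y * x)⟫_ℂ
  dense : ∀ x (ε : ℝ), 0 < ε → ∃ y ∈ Submodule.span ℂ (Set.range L), ‖ev (x - y)‖ < ε
  faithful : ∀ x, ev x = 0 → x = 0

variable {A H Γ : Type} [CStarAlgebra A] [NormedAddCommGroup H] [InnerProductSpace ℂ H]
    [Group Γ] (D : GS A H Γ)

namespace GS

/-- the trace -/
noncomputable def τ (x : A) : ℂ := ⟪D.ev 1, D.ev x⟫_ℂ

/-- the 2-norm -/
noncomputable def n2 (x : A) : ℝ := ‖D.ev x‖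

theorem n2_sq (x : A) : ((D.n2 x ^ 2 : ℝ) : ℂ) = D.τ (star x * x) := by
  unfold n2 τ
  rw [← D.inner_ev, inner_self_eq_norm_sq_to_K]
  push_cast
  rfl

theorem n2_nonneg (x : A) : 0 ≤ D.n2 x := norm_nonneg _

theorem n2_star (x : A) : D.n2 (star x) = D.n2 x := by
  have h1 := D.n2_sq x
  have h2 := D.n2_sq (star x)
  rw [star_star] at h2
  have h3 : D.τ (x * star x) = D.τ (star x * x) := D.tr _ _
  rw [h3, ← h1] at h2
  have h4 : D.n2 (star x) ^ 2 = D.n2 x ^ 2 := by exact_mod_cast h2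
  exact (pow_left_inj₀ (norm_nonneg _) (norm_nonneg _) two_ne_zero).1 h4

theorem n2_unitary_left {u : A} (hu : u ∈ unitary A) (x : A) : D.n2 (u * x) = D.n2 x := by
  have h1 := D.n2_sq x
  have h2 := D.n2_sq (u * x)
  have h3 : star (u * x) * (u * x) = star x * x := by
    rw [star_mul, mul_assoc, ← mul_assoc (star u) u x, (Unitary.mem_iff.1 hu).1, one_mul]
  rw [h3, ← h1] at h2
  have h4 : D.n2 (u * x) ^ 2 = D.n2 x ^ 2 := by exact_mod_cast h2
  exact (pow_left_inj₀ (norm_nonneg _) (norm_nonneg _) two_ne_zero).1 h4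

theorem n2_unitary_right {u : A} (hu : u ∈ unitary A) (x : A) : D.n2 (x * u) = D.n2 x := by
  rw [← D.n2_star (x * u), star_mul, D.n2_unitary_left (Unitary.star_mem hu), D.n2_star]

theorem n2_add (x y : A) : D.n2 (x + y) ≤ D.n2 x + D.n2 y := by
  unfold n2
  rw [map_add]
  exact norm_add_le _ _

theorem n2_smul (c : ℂ) (x : A) : D.n2 (c • x) = ‖c‖ * D.n2 x := by
  unfold n2
  rw [map_smul, norm_smul]

theorem n2_neg (x : A) : D.n2 (-x) = D.n2 x := by
  unfold n2
  rw [map_neg, norm_neg]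

theorem n2_sub_comm (x y : A) : D.n2 (x - y) = D.n2 (y - x) := by
  rw [← D.n2_neg, neg_sub]

theorem L_unitary (g : Γ) : D.L g ∈ unitary A := by
  rw [Unitary.mem_iff, D.star_L, ← map_mul, ← map_mul]
  simp

theorem one_orth : ‖D.ev 1‖ = 1 := by
  have := D.orth.1 1
  simpa using this

theorem τ_one : D.τ 1 = 1 := by
  unfold τ
  rw [inner_self_eq_norm_sq_to_K, D.one_orth]
  norm_num

theorem τ_L (g : Γ) [Decidable (g = 1)] : D.τ (D.L g) = if g = 1 then 1 else 0 := by
  split_ifs with h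
  · rw [h, map_one, D.τ_one]
  · unfold τ
    have := D.orth.2 (Ne.symm h : (1 : Γ) ≠ g)
    simpa using this

theorem norm_τ_le (x : A) : ‖D.τ x‖ ≤ D.n2 x := by
  unfold τ n2
  refine (norm_inner_le_norm _ _).trans ?_
  rw [D.one_orth, one_mul]

theorem n2_one : D.n2 1 = 1 := D.one_orth

theorem n2_unitary {u : A} (hu : u ∈ unitary A) : D.n2 u = 1 := by
  have := D.n2_unitary_left hu 1
  rwa [mul_one, D.n2_one] at this

theorem norm_τ_unitary {u : A} (hu : u ∈ unitary A) : ‖D.τ u‖ ≤ 1 :=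
  (D.norm_τ_le u).trans (D.n2_unitary hu).le

theorem τ_continuous : Continuous D.τ := by
  unfold τ
  fun_prop

theorem τ_add (x y : A) : D.τ (x + y) = D.τ x + D.τ y := by
  unfold τ
  rw [map_add, inner_add_right]

theorem τ_smul (c : ℂ) (x : A) : D.τ (c • x) = c * D.τ x := by
  unfold τ
  rw [map_smul, inner_smul_right]

theorem τ_zero : D.τ 0 = 0 := by
  unfold τ
  rw [map_zero, inner_zero_right]

theorem τ_comm (x y : A) : D.τ (x * y) = D.τ (y * x) := D.tr x y

/-- the trace of `u x u*` -/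
theorem τ_conj {u : A} (hu : u ∈ unitary A) (x : A) : D.τ (u * x * star u) = D.τ x := by
  rw [D.τ_comm, ← mul_assoc, (Unitary.mem_iff.1 hu).1, one_mul]

end GS

/-! ### exponentials -/

/-- `e^{ix}` -/
noncomputable def E (x : A) : A := NormedSpace.exp (Complex.I • x)

theorem E_zero : E (0 : A) = 1 := by
  unfold E
  rw [smul_zero, NormedSpace.exp_zero]

theorem E_add {x y : A} (h : Commute x y) : E (x + y) = E x * E y := by
  unfold E
  let _ : NormedAlgebra ℚ A := NormedAlgebra.restrictScalars ℚ ℂ A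
  rw [smul_add, NormedSpace.exp_add_of_commute ((h.smul_left _).smul_right _)]

theorem skew_of {x : A} (h : IsSelfAdjoint x) : Complex.I • x ∈ skewAdjoint A := by
  rw [skewAdjoint.mem_iff, star_smul, h.star_eq]
  simp

theorem E_unitary {x : A} (h : IsSelfAdjoint x) : E x ∈ unitary A := by
  let _ : NormedAlgebra ℚ A := NormedAlgebra.restrictScalars ℚ ℂ A
  exact NormedSpace.exp_mem_unitary_of_mem_skewAdjoint (skew_of h)

theorem star_E {x : A} (h : IsSelfAdjoint x) : star (E x) = E (-x) := by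
  unfold E
  rw [NormedSpace.star_exp, skewAdjoint.mem_iff.1 (skew_of h), smul_neg]

theorem E_comm {x y : A} (h : Commute x y) : Commute (E x) (E y) := by
  unfold E
  exact ((h.smul_left _).smul_right _).exp

theorem E_comm_left {x y : A} (h : Commute x y) : Commute (E x) y := by
  unfold E
  exact (h.smul_left _).exp_left

theorem E_conj {u : A} (hu : u ∈ unitary A) (x : A) : u * E x * star u = E (u * x * star u) := by
  let _ : NormedAlgebra ℚ A := NormedAlgebra.restrictScalars ℚ ℂ A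
  have h : SemiconjBy u (Complex.I • x) (Complex.I • (u * x * star u)) := by
    unfold SemiconjBy
    rw [mul_smul_comm, smul_mul_assoc, mul_assoc (u * x), (Unitary.mem_iff.1 hu).1, mul_one]
  have h2 := h.exp_right
  unfold E
  have h3 : u * NormedSpace.exp (Complex.I • x) =
    NormedSpace.exp (Complex.I • (u * x * star u)) * u := h2
  rw [h3, mul_assoc, (Unitary.mem_iff.1 hu).2, mul_one]

theorem hasDerivAt_E (x : A) (t : ℝ) :
    HasDerivAt (fun t : ℝ => E ((t : ℂ) • x)) (E ((t : ℂ) • x) * (Complex.I • x)) t := by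
  have h := hasDerivAt_exp_smul_const (𝕂 := ℝ) (Complex.I • x) t
  have e : ∀ u : ℝ, NormedSpace.exp (u • (Complex.I • x)) = E ((u : ℂ) • x) := by
    intro u
    unfold E
    congr 1
    rw [smul_comm, Complex.coe_smul]
  simp only [e] at h
  exact h

namespace GS

theorem n2_E_sub_one {d : A} (hd : IsSelfAdjoint d) : D.n2 (E d - 1) ≤ D.n2 d := by
  let f : ℝ → H := fun t => D.ev (E ((t : ℂ) • d))
  have hsa : ∀ t : ℝ, IsSelfAdjoint ((t : ℂ) • d) := by
    intro t
    rw [isSelfAdjoint_iff, star_smul, hd.star_eq]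
    simp
  have hf : ∀ t : ℝ, HasDerivAt f (D.ev (E ((t : ℂ) • d) * (Complex.I • d))) t := by
    intro t
    exact ((D.ev.restrictScalars ℝ).hasFDerivAt.comp_hasDerivAt t (hasDerivAt_E d t))
  have hb : ∀ t : ℝ, ‖D.ev (E ((t : ℂ) • d) * (Complex.I • d))‖ ≤ D.n2 d := by
    intro t
    have h1 : ‖D.ev (E ((t : ℂ) • d) * (Complex.I • d))‖ =
      D.n2 (E ((t : ℂ) • d) * (Complex.I • d)) := rfl
    rw [h1, D.n2_unitary_left (E_unitary (hsa t)), D.n2_smul]
    simp
  have h := norm_image_sub_le_of_norm_deriv_le_segment_01' (f := f)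
    (f' := fun t => D.ev (E ((t : ℂ) • d) * (Complex.I • d))) (C := D.n2 d)
    (fun t _ => (hf t).hasDerivWithinAt) (fun t _ => hb t)
  have h1 : f 1 = D.ev (E d) := by simp [f]
  have h0 : f 0 = D.ev 1 := by simp [f, E_zero]
  rw [h1, h0, ← map_sub] at h
  exact h

theorem n2_E_sub {x y : A} (hx : IsSelfAdjoint x) (hy : IsSelfAdjoint y) (h : Commute x y) :
    D.n2 (E x - E y) ≤ D.n2 (x - y) := by
  have h1 : E x = E y * E (x - y) := by
    rw [← E_add]
    · congr 1
      abel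
    · exact (h.symm.sub_right (Commute.refl y))
  have h2 : E x - E y = E y * (E (x - y) - 1) := by
    rw [mul_sub, mul_one, ← h1]
  rw [h2, D.n2_unitary_left (E_unitary hy)]
  exact D.n2_E_sub_one (hx.sub hy)

end GS

end Pool.Agent.R288.CL
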