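import Mathlib
import Pool.Agent.R288.CL.OP1

/-!
# MP_335bcb_an: slowly varying sums are asymptotically central
-/

set_option autoImplicit false

open Filter Topology
open scoped InnerProductSpace

namespace Pool.Agent.R288.CL

variable {A H Γ : Type} [CStarAlgebra A] [NormedAddCommGroup H] [InnerProductSpace ℂ H]
    [Group Γ] (D : GS A H Γ)

/-- the tent of half width `N + 1` around `2 N + 1` -/
noncomputable def tent (N m : ℕ) : ℝ := max 0 (1 - |(m : ℝ) - (2 * N + 1)| / (N + 1))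

theorem tent_top (N : ℕ) : tent N (2 * N + 1) = 1 := by
  unfold tent
  push_cast
  simp

theorem tent_low {N m : ℕ} (h : m ≤ N) : tent N m = 0 := by
  unfold tent
  have h1 : (m : ℝ) ≤ N := by exact_mod_cast h
  have h2 : (0 : ℝ) < N + 1 := by positivity
  refine max_eq_left ?_
  rw [sub_nonpos, le_div_iff₀ h2, abs_sub_comm, abs_of_nonneg (by linarith)]
  linarith

theorem tent_high {N m : ℕ} (h : 3 * N + 2 ≤ m) : tent N m = 0 := by
  unfold tent
  have h1 : (3 * N + 2 : ℝ) ≤ m := by exact_mod_cast h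
  have h2 : (0 : ℝ) < N + 1 := by positivity
  refine max_eq_left ?_
  rw [sub_nonpos, le_div_iff₀ h2, abs_of_nonneg (by linarith)]
  linarith

theorem tent_lip (N m n : ℕ) : |tent N m - tent N n| ≤ |(m : ℝ) - n| / (N + 1) := by
  unfold tent
  have h2 : (0 : ℝ) < N + 1 := by positivity
  rw [max_comm 0, max_comm 0]
  refine (abs_max_sub_max_le_abs (1 - |(m : ℝ) - (2 * N + 1)| / (N + 1))
    (1 - |(n : ℝ) - (2 * N + 1)| / (N + 1)) 0).trans ?_
  have : (1 - |(m : ℝ) - (2 * N + 1)| / (N + 1)) - (1 - |(n : ℝ) - (2 * N + 1)| / (N + 1)) =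
      (|(n : ℝ) - (2 * N + 1)| - |(m : ℝ) - (2 * N + 1)|) / (N + 1) := by ring
  rw [this, abs_div, abs_of_pos h2]
  refine div_le_div_of_nonneg_right ?_ h2.le
  refine (abs_abs_sub_abs_le _ _).trans ?_
  rw [abs_sub_comm]
  refine le_of_eq ?_
  congr 1
  ring

/-- shifting the index of a sum whose terms vanish at both ends -/
theorem sum_shift {M : Type} [AddCommMonoid M] (f : ℕ → M) (b R : ℕ) (h0 : ∀ m < b, f m = 0)
    (h1 : ∀ m, R ≤ m → f m = 0) :
    ∑ m ∈ Finset.range R, f m = ∑ n ∈ Finset.range R, f (n + b) := by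
  have e1 : ∑ m ∈ Finset.range (b + R), f m =
      ∑ m ∈ Finset.range b, f m + ∑ n ∈ Finset.range R, f (b + n) := Finset.sum_range_add f b R
  have e2 : ∑ m ∈ Finset.range (R + b), f m =
      ∑ m ∈ Finset.range R, f m + ∑ n ∈ Finset.range b, f (R + n) := Finset.sum_range_add f R b
  rw [Finset.sum_eq_zero (s := Finset.range b) (fun m hm => h0 m (Finset.mem_range.1 hm)),
    zero_add] at e1
  rw [Finset.sum_eq_zero (s := Finset.range b) (fun m _ => h1 _ (Nat.le_add_right R m)),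
    add_zero] at e2
  rw [← e2, add_comm R b, e1]
  exact Finset.sum_congr rfl fun n _ => by rw [add_comm]

namespace GS

/-- `λ_g + λ_g⁻¹` -/
noncomputable def a (g : Γ) : A := D.L g + D.L g⁻¹

theorem a_sa (g : Γ) : IsSelfAdjoint (D.a g) := by
  unfold a
  rw [isSelfAdjoint_iff, star_add, D.star_L, D.star_L, inv_inv, add_comm]

theorem a_conj (g h : Γ) : D.L g * D.a h * star (D.L g) = D.a (g * h * g⁻¹) := by
  unfold a
  rw [D.star_L, mul_add, add_mul, ← map_mul, ← map_mul, ← map_mul, ← map_mul]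
  congr 2
  group

theorem L_comm {g h : Γ} (hc : Commute g h) : Commute (D.L g) (D.L h) := hc.map D.L

theorem a_comm {g h : Γ} (hc : Commute g h) : Commute (D.a g) (D.a h) := by
  unfold a
  exact ((D.L_comm hc).add_right (D.L_comm hc.inv_right)).add_left
    ((D.L_comm hc.inv_left).add_right (D.L_comm hc.inv_left.inv_right))

/-- `∑_{m < R} c_m (λ(x_m) + λ(x_m)⁻¹)` -/
noncomputable def S (x : ℕ → Γ) (c : ℕ → ℝ) (R : ℕ) : A :=
  ∑ m ∈ Finset.range R, (c m : ℂ) • D.a (x m)

theorem S_sa (x : ℕ → Γ) (c : ℕ → ℝ) (R : ℕ) : IsSelfAdjoint (D.S x c R) := by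
  unfold S
  refine isSelfAdjoint_sum _ fun m _ => ?_
  rw [isSelfAdjoint_iff, star_smul, (D.a_sa _).star_eq]
  simp

theorem norm_sum_L {x : ℕ → Γ} (hx : Function.Injective x) (c : ℕ → ℝ) (R : ℕ) :
    D.n2 (∑ m ∈ Finset.range R, (c m : ℂ) • D.L (x m)) =
      Real.sqrt (∑ m ∈ Finset.range R, c m ^ 2) := by
  unfold n2
  rw [map_sum]
  have ho : Orthonormal ℂ fun m => D.ev (D.L (x m)) := D.orth.comp x hx
  have h1 : ⟪∑ m ∈ Finset.range R, (c m : ℂ) • D.ev (D.L (x m)),
      ∑ m ∈ Finset.range R, (c m : ℂ) • D.ev (D.L (x m))⟫_ℂ =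
      ((∑ m ∈ Finset.range R, c m ^ 2 : ℝ) : ℂ) := by
    rw [ho.inner_sum]
    push_cast
    refine Finset.sum_congr rfl fun m _ => ?_
    rw [Complex.conj_ofReal]
    ring
  rw [inner_self_eq_norm_sq_to_K] at h1
  have h2 : ‖∑ m ∈ Finset.range R, (c m : ℂ) • D.ev (D.L (x m))‖ ^ 2 =
      ∑ m ∈ Finset.range R, c m ^ 2 := by
    apply Complex.ofReal_injective
    rw [← h1]
    push_cast
    rfl
  rw [← h2, Real.sqrt_sq (norm_nonneg _)]
  simp only [map_smul]

theorem n2_S {x : ℕ → Γ} (hx : Function.Injective x) (c : ℕ → ℝ) (R : ℕ) :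
    D.n2 (D.S x c R) ≤ 2 * Real.sqrt (∑ m ∈ Finset.range R, c m ^ 2) := by
  have h1 : D.S x c R = ∑ m ∈ Finset.range R, (c m : ℂ) • D.L (x m) +
      ∑ m ∈ Finset.range R, (c m : ℂ) • D.L (x m)⁻¹ := by
    unfold S a
    rw [← Finset.sum_add_distrib]
    exact Finset.sum_congr rfl fun m _ => smul_add _ _ _
  rw [h1]
  refine (D.n2_add _ _).trans ?_
  rw [D.norm_sum_L hx, D.norm_sum_L (x := fun m => (x m)⁻¹)
    (fun m n h => hx (inv_injective h))]
  linarith

theorem S_comm {x y : ℕ → Γ} (h : ∀ m n, Commute (x m) (y n)) (c d : ℕ → ℝ) (R R' : ℕ) :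
    Commute (D.S x c R) (D.S y d R') := by
  unfold S
  refine Commute.sum_left _ _ _ fun m _ => Commute.sum_right _ _ _ fun n _ => ?_
  exact ((D.a_comm (h m n)).smul_right _).smul_left _

theorem S_conj (g : Γ) (x : ℕ → Γ) (c : ℕ → ℝ) (R : ℕ) :
    D.L g * D.S x c R * star (D.L g) = D.S (fun m => g * x m * g⁻¹) c R := by
  unfold S
  rw [Finset.mul_sum, Finset.sum_mul]
  refine Finset.sum_congr rfl fun m _ => ?_
  rw [mul_smul_comm, smul_mul_assoc, D.a_conj]

theorem S_sub (x : ℕ → Γ) (c d : ℕ → ℝ) (R : ℕ) :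
    D.S x c R - D.S x d R = D.S x (fun m => c m - d m) R := by
  unfold S
  rw [← Finset.sum_sub_distrib]
  refine Finset.sum_congr rfl fun m _ => ?_
  rw [← sub_smul]
  push_cast
  rfl

/-- the approximately central unitaries -/
noncomputable def U (x : ℕ → Γ) (r : ℝ) (N : ℕ) : A :=
  E (D.S x (fun m => r * tent N m) (4 * N + 4))

theorem U_unitary (x : ℕ → Γ) (r : ℝ) (N : ℕ) : D.U x r N ∈ unitary A :=
  E_unitary (D.S_sa _ _ _)

theorem S_shift (x : ℕ → Γ) (r : ℝ) {N b : ℕ} (hb : b ≤ N) :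
    D.S x (fun m => r * tent N m) (4 * N + 4) =
      D.S (fun n => x (n + b)) (fun n => r * tent N (n + b)) (4 * N + 4) := by
  unfold S
  refine sum_shift (fun m => ((r * tent N m : ℝ) : ℂ) • D.a (x m)) b (4 * N + 4) ?_ ?_
  · intro m hm
    show ((r * tent N m : ℝ) : ℂ) • D.a (x m) = 0
    rw [tent_low (by omega), mul_zero, Complex.ofReal_zero, zero_smul]
  · intro m hm
    show ((r * tent N m : ℝ) : ℂ) • D.a (x m) = 0
    rw [tent_high (by omega), mul_zero, Complex.ofReal_zero, zero_smul]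

theorem U_conj {x : ℕ → Γ} (hx : Function.Injective x) (hc : ∀ m n, Commute (x m) (x n)) (r : ℝ)
    {g : Γ} {a b : ℕ} (hg : ∀ m, g * x (m + b) * g⁻¹ = x (m + a)) {N : ℕ} (ha : a ≤ N)
    (hb : b ≤ N) :
    D.n2 (D.L g * D.U x r N * star (D.L g) - D.U x r N) ≤
      4 * |r| * |(b : ℝ) - a| / Real.sqrt (N + 1) := by
  have e1 : D.L g * D.U x r N * star (D.L g) =
      E (D.S (fun n => x (n + a)) (fun n => r * tent N (n + b)) (4 * N + 4)) := by
    unfold U
    rw [E_conj (D.L_unitary g), D.S_shift x r hb, D.S_conj]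
    congr 2
    funext m
    exact hg m
  have e2 : D.U x r N = E (D.S (fun n => x (n + a)) (fun n => r * tent N (n + a)) (4 * N + 4)) := by
    unfold U
    rw [D.S_shift x r ha]
  rw [e1, e2]
  refine (D.n2_E_sub (D.S_sa _ _ _) (D.S_sa _ _ _) (D.S_comm (fun m n => hc _ _) _ _ _ _)).trans ?_
  rw [D.S_sub]
  refine (D.n2_S (fun m n h => by simpa using hx h) _ _).trans ?_
  have hN : (0 : ℝ) < N + 1 := by positivity
  have h1 : ∑ m ∈ Finset.range (4 * N + 4), (r * tent N (m + b) - r * tent N (m + a)) ^ 2 ≤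
      4 * (r * |(b : ℝ) - a|) ^ 2 / (N + 1) := by
    have h2 : ∀ m ∈ Finset.range (4 * N + 4), (r * tent N (m + b) - r * tent N (m + a)) ^ 2 ≤
        (|r| * (|(b : ℝ) - a| / (N + 1))) ^ 2 := by
      intro m _
      rw [← mul_sub, ← sq_abs, abs_mul]
      refine pow_le_pow_left₀ (by positivity) ?_ 2
      refine mul_le_mul_of_nonneg_left ?_ (abs_nonneg _)
      have := tent_lip N (m + b) (m + a)
      refine this.trans (le_of_eq ?_)
      push_cast
      congr 2
      ring
    refine (Finset.sum_le_sum h2).trans ?_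
    rw [Finset.sum_const, Finset.card_range, nsmul_eq_mul]
    have h3 : (|r| * (|(b : ℝ) - a| / (N + 1))) ^ 2 = (r * |(b : ℝ) - a|) ^ 2 / (N + 1) ^ 2 := by
      rw [mul_pow, sq_abs, div_pow, mul_pow]
      ring
    rw [h3]
    push_cast
    refine le_of_eq ?_
    field_simp
  have h4 : Real.sqrt (∑ m ∈ Finset.range (4 * N + 4),
      (r * tent N (m + b) - r * tent N (m + a)) ^ 2) ≤ 2 * |r| * |(b : ℝ) - a| / Real.sqrt (N + 1) := by
    refine (Real.sqrt_le_sqrt h1).trans (le_of_eq ?_)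
    rw [Real.sqrt_div' _ hN.le]
    congr 1
    have : 4 * (r * |(b : ℝ) - a|) ^ 2 = (2 * |r| * |(b : ℝ) - a|) ^ 2 := by
      rw [mul_pow, mul_pow, mul_pow, sq_abs r]
      ring
    rw [this, Real.sqrt_sq (by positivity)]
  calc 2 * Real.sqrt (∑ m ∈ Finset.range (4 * N + 4),
      (r * tent N (m + b) - r * tent N (m + a)) ^ 2)
      ≤ 2 * (2 * |r| * |(b : ℝ) - a| / Real.sqrt (N + 1)) := by linarith
    _ = 4 * |r| * |(b : ℝ) - a| / Real.sqrt (N + 1) := by ring

theorem U_comm_L {x : ℕ → Γ} (hx : Function.Injective x) (hc : ∀ m n, Commute (x m) (x n)) (r : ℝ)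
    {g : Γ} {a b : ℕ} (hg : ∀ m, g * x (m + b) * g⁻¹ = x (m + a)) :
    Tendsto (fun N => D.n2 (D.U x r N * D.L g - D.L g * D.U x r N)) atTop (𝓝 0) := by
  have h1 : Tendsto (fun N : ℕ => 4 * |r| * |(b : ℝ) - a| / Real.sqrt ((N : ℝ) + 1)) atTop
      (𝓝 0) := by
    refine Tendsto.div_atTop tendsto_const_nhds ?_
    exact Real.tendsto_sqrt_atTop.comp (tendsto_atTop_add_const_right _ _
      tendsto_natCast_atTop_atTop)
  refine tendsto_of_tendsto_of_tendsto_of_le_of_le' tendsto_const_nhds h1 ?_ ?_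
  · exact Eventually.of_forall fun N => D.n2_nonneg _
  · filter_upwards [eventually_ge_atTop (max a b)] with N hN
    have h2 : D.U x r N * D.L g - D.L g * D.U x r N =
        -((D.L g * D.U x r N * star (D.L g) - D.U x r N) * D.L g) := by
      rw [sub_mul, mul_assoc (D.L g * D.U x r N), (Unitary.mem_iff.1 (D.L_unitary g)).1, mul_one]
      abel
    rw [h2, D.n2_neg, D.n2_unitary_right (D.L_unitary g)]
    exact D.U_conj hx hc r hg (le_trans (le_max_left _ _) hN) (le_trans (le_max_right _ _) hN)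

/-- asymptotic commutation with the group gives asymptotic commutation with everything -/
theorem central_of {u : ℕ → A} (hu : ∀ n, u n ∈ unitary A)
    (h : ∀ g, Tendsto (fun n => D.n2 (u n * D.L g - D.L g * u n)) atTop (𝓝 0)) (x : A) :
    Tendsto (fun n => D.n2 (u n * x - x * u n)) atTop (𝓝 0) := by
  have hspan : ∀ y ∈ Submodule.span ℂ (Set.range D.L),
      Tendsto (fun n => D.n2 (u n * y - y * u n)) atTop (𝓝 0) := by
    intro y hy
    induction hy using Submodule.span_induction with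
    | mem y hy =>
      obtain ⟨g, rfl⟩ := hy
      exact h g
    | zero =>
      have : ∀ n, D.n2 (u n * 0 - 0 * u n) = 0 := by
        intro n
        simp [n2]
      simp only [this]
      exact tendsto_const_nhds
    | add y z _ _ hy hz =>
      have h1 := hy.add hz
      rw [add_zero] at h1
      refine squeeze_zero (fun n => D.n2_nonneg _) (fun n => ?_) h1
      have : u n * (y + z) - (y + z) * u n = (u n * y - y * u n) + (u n * z - z * u n) := by
        rw [mul_add, add_mul]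
        abel
      rw [this]
      exact D.n2_add _ _
    | smul c y _ hy =>
      have h1 := hy.const_mul ‖c‖
      rw [mul_zero] at h1
      refine h1.congr fun n => ?_
      rw [← D.n2_smul, smul_sub, mul_smul_comm, smul_mul_assoc]
  rw [Metric.tendsto_atTop]
  intro ε hε
  obtain ⟨y, hy, hxy⟩ := D.dense x (ε / 3) (by linarith)
  obtain ⟨N, hN⟩ := (Metric.tendsto_atTop.1 (hspan y hy)) (ε / 3) (by linarith)
  refine ⟨N, fun n hn => ?_⟩
  have h1 := hN n hn
  rw [Real.dist_eq, sub_zero, abs_of_nonneg (D.n2_nonneg _)] at h1 ⊢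
  have h2 : u n * x - x * u n = u n * (x - y) + (-((x - y) * u n)) + (u n * y - y * u n) := by
    rw [mul_sub, sub_mul]
    abel
  rw [h2]
  refine (D.n2_add _ _).trans_lt ?_
  have h3 := D.n2_add (u n * (x - y)) (-((x - y) * u n))
  rw [D.n2_neg, D.n2_unitary_left (hu n), D.n2_unitary_right (hu n)] at h3
  have h4 : D.n2 (x - y) < ε / 3 := hxy
  linarith

end GS

end Pool.Agent.R288.CL
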