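import Mathlib
import Pool.Agent.R288.CL.OP2

/-!
# MP_335bcb_an: traces of exponentials
-/

set_option autoImplicit false

open Filter Topology
open scoped InnerProductSpace

namespace Pool.Agent.R288.CL

variable {A H Γ : Type} [CStarAlgebra A] [NormedAddCommGroup H] [InnerProductSpace ℂ H]
    [Group Γ] (D : GS A H Γ)

namespace GS

/-- the norm closed algebra generated by the unitaries of a subgroup -/
noncomputable def CA (P : Subgroup Γ) : Subalgebra ℂ A :=
  (Algebra.adjoin ℂ (D.L '' (P : Set Γ))).topologicalClosure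

theorem CA_closed (P : Subgroup Γ) : IsClosed (D.CA P : Set A) :=
  Subalgebra.isClosed_topologicalClosure _

theorem L_mem_CA {P : Subgroup Γ} {g : Γ} (hg : g ∈ P) : D.L g ∈ D.CA P :=
  Subalgebra.le_topologicalClosure _ (Algebra.subset_adjoin ⟨g, hg, rfl⟩)

theorem a_mem_CA {P : Subgroup Γ} {g : Γ} (hg : g ∈ P) : D.a g ∈ D.CA P :=
  (D.CA P).add_mem (D.L_mem_CA hg) (D.L_mem_CA (P.inv_mem hg))

theorem E_mem_CA {P : Subgroup Γ} {x : A} (hx : x ∈ D.CA P) : E x ∈ D.CA P := by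
  let _ : NormedAlgebra ℚ A := NormedAlgebra.restrictScalars ℚ ℂ A
  exact NormedSpace.exp_mem (R := ℂ) (D.CA_closed P) ((D.CA P).smul_mem hx _)

theorem adjoin_sub_span (P : Subgroup Γ) {x : A} (hx : x ∈ Algebra.adjoin ℂ (D.L '' (P : Set Γ))) :
    x ∈ Submodule.span ℂ (D.L '' (P : Set Γ)) := by
  have h1 : x ∈ Subalgebra.toSubmodule (Algebra.adjoin ℂ (D.L '' (P : Set Γ))) := hx
  rw [Algebra.adjoin_eq_span] at h1
  refine Submodule.span_mono ?_ h1
  have h2 : Submonoid.closure (D.L '' (P : Set Γ)) ≤ P.toSubmonoid.map D.L := by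
    rw [Submonoid.closure_le]
    rintro _ ⟨g, hg, rfl⟩
    exact ⟨g, hg, rfl⟩
  intro y hy
  obtain ⟨g, hg, rfl⟩ := h2 hy
  exact ⟨g, hg, rfl⟩

theorem τ_mul_span {P Q : Subgroup Γ} (hPQ : Disjoint P Q) {x y : A}
    (hx : x ∈ Submodule.span ℂ (D.L '' (P : Set Γ)))
    (hy : y ∈ Submodule.span ℂ (D.L '' (Q : Set Γ))) : D.τ (x * y) = D.τ x * D.τ y := by
  classical
  induction hx using Submodule.span_induction with
  | mem x hx =>
    obtain ⟨p, hp, rfl⟩ := hx
    induction hy using Submodule.span_induction with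
    | mem y hy =>
      obtain ⟨q, hq, rfl⟩ := hy
      rw [← map_mul, D.τ_L, D.τ_L, D.τ_L]
      by_cases h : p * q = 1
      · have h1 : p = q⁻¹ := eq_inv_of_mul_eq_one_left h
        have h2 : p ∈ Q := by rw [h1]; exact Q.inv_mem hq
        have h3 : p = 1 := Subgroup.disjoint_def.1 hPQ hp h2
        have h4 : q = 1 := by rw [h3, one_mul] at h; exact h
        rw [h3, h4]
        simp
      · rw [if_neg h]
        by_cases h1 : p = 1
        · have h2 : q ≠ 1 := by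
            intro h2
            apply h
            rw [h1, h2, mul_one]
          rw [if_neg h2, mul_zero]
        · rw [if_neg h1, zero_mul]
    | zero => rw [mul_zero, D.τ_zero, mul_zero]
    | add y z _ _ hy hz => rw [mul_add, D.τ_add, D.τ_add, hy, hz, mul_add]
    | smul c y _ hy => rw [mul_smul_comm, D.τ_smul, D.τ_smul, hy]; ring
  | zero => rw [zero_mul, D.τ_zero, zero_mul]
  | add x z _ _ hx hz => rw [add_mul, D.τ_add, D.τ_add, hx, hz, add_mul]
  | smul c x _ hx => rw [smul_mul_assoc, D.τ_smul, D.τ_smul, hx]; ring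

theorem τ_mul_CA {P Q : Subgroup Γ} (hPQ : Disjoint P Q) {x y : A}
    (hx : x ∈ D.CA P) (hy : y ∈ D.CA Q) : D.τ (x * y) = D.τ x * D.τ y := by
  have hτ := D.τ_continuous
  have h1 : ∀ y' ∈ Algebra.adjoin ℂ (D.L '' (Q : Set Γ)), D.τ (x * y') = D.τ x * D.τ y' := by
    intro y' hy'
    have hc : IsClosed {z : A | D.τ (z * y') = D.τ z * D.τ y'} :=
      isClosed_eq (hτ.comp (continuous_mul_const y')) (hτ.mul continuous_const)
    have hs : (Algebra.adjoin ℂ (D.L '' (P : Set Γ)) : Set A) ⊆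
        {z : A | D.τ (z * y') = D.τ z * D.τ y'} := fun z hz =>
      D.τ_mul_span hPQ (D.adjoin_sub_span P hz) (D.adjoin_sub_span Q hy')
    exact closure_minimal hs hc hx
  have hc : IsClosed {z : A | D.τ (x * z) = D.τ x * D.τ z} :=
    isClosed_eq (hτ.comp (continuous_const_mul x)) (continuous_const.mul hτ)
  exact closure_minimal (fun z hz => h1 z hz) hc hy

/-! ### the trace of `exp(i r (λ_s + λ_s⁻¹))` -/

theorem τ_a_pow {s : Γ} (hs : ∀ k : ℤ, s ^ k = 1 → k = 0) (n : ℕ) :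
    D.τ (D.a s ^ n) = ∑ m ∈ Finset.range (n + 1), if 2 * m = n then (n.choose m : ℂ) else 0 := by
  classical
  unfold a
  have hc : Commute (D.L s) (D.L s⁻¹) := D.L_comm (Commute.refl s).inv_right
  rw [hc.add_pow]
  have hsum : ∀ (f : ℕ → A) (R : ℕ), D.τ (∑ m ∈ Finset.range R, f m) =
      ∑ m ∈ Finset.range R, D.τ (f m) := by
    intro f R
    unfold τ
    rw [map_sum, inner_sum]
  rw [hsum]
  refine Finset.sum_congr rfl fun m hm => ?_
  have hm' : m ≤ n := Nat.lt_succ_iff.1 (Finset.mem_range.1 hm)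
  have h1 : D.L s ^ m * D.L s⁻¹ ^ (n - m) * (n.choose m : A) =
      (n.choose m : ℂ) • D.L (s ^ (2 * (m : ℤ) - n)) := by
    have h2 : s ^ (2 * (m : ℤ) - n) = s ^ m * s⁻¹ ^ (n - m) := by
      rw [inv_pow, ← zpow_natCast s m, ← zpow_natCast s (n - m), ← zpow_neg, ← zpow_add]
      congr 1
      omega
    rw [h2, map_mul, map_pow, map_pow, ← Nat.cast_comm]
    simp [Algebra.smul_def]
  rw [h1, D.τ_smul, D.τ_L]
  by_cases h : 2 * m = n
  · have : s ^ (2 * (m : ℤ) - n) = 1 := by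
      have : 2 * (m : ℤ) - n = 0 := by omega
      rw [this, zpow_zero]
    rw [if_pos this, if_pos h, mul_one]
  · have : s ^ (2 * (m : ℤ) - n) ≠ 1 := by
      intro h'
      have := hs _ h'
      omega
    rw [if_neg this, if_neg h, mul_zero]

theorem τ_a_pow_even {s : Γ} (hs : ∀ k : ℤ, s ^ k = 1 → k = 0) (k : ℕ) :
    D.τ (D.a s ^ (2 * k)) = ((2 * k).choose k : ℂ) := by
  rw [D.τ_a_pow hs, Finset.sum_eq_single k]
  · simp
  · intro m _ hm
    rw [if_neg (by omega)]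
  · intro h
    exact absurd (Finset.mem_range.2 (by omega)) h

theorem τ_a_pow_odd {s : Γ} (hs : ∀ k : ℤ, s ^ k = 1 → k = 0) {n : ℕ} (hn : ¬ ∃ k, 2 * k = n) :
    D.τ (D.a s ^ n) = 0 := by
  rw [D.τ_a_pow hs]
  refine Finset.sum_eq_zero fun m _ => ?_
  rw [if_neg]
  intro h
  exact hn ⟨m, h⟩

theorem hasSum_τ_E {s : Γ} (hs : ∀ k : ℤ, s ^ k = 1 → k = 0) (r : ℝ) :
    HasSum (fun k : ℕ => (((-1) ^ k * (r ^ 2) ^ k / ((k.factorial : ℝ) ^ 2) : ℝ) : ℂ))
      (D.τ (E ((r : ℂ) • D.a s))) := by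
  have h1 := NormedSpace.exp_series_hasSum_exp' (𝕂 := ℂ) (Complex.I • ((r : ℂ) • D.a s))
  let T : A →L[ℂ] ℂ := (innerSL ℂ (D.ev 1)).comp D.ev
  have hT : ∀ x, T x = D.τ x := fun x => rfl
  have h2 := h1.mapL T
  simp only [hT] at h2
  have h3 : HasSum (fun n : ℕ => D.τ ((n.factorial : ℂ)⁻¹ • (Complex.I • ((r : ℂ) • D.a s)) ^ n))
    (D.τ (E ((r : ℂ) • D.a s))) := h2
  have hinj : Function.Injective (fun k : ℕ => 2 * k) := fun a b h => by
    have : 2 * a = 2 * b := h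
    omega
  rw [← hinj.hasSum_iff] at h3
  · refine h3.congr_fun ?_
    intro k
    show _ = D.τ (((2 * k).factorial : ℂ)⁻¹ • (Complex.I • ((r : ℂ) • D.a s)) ^ (2 * k))
    rw [smul_pow, smul_pow, D.τ_smul, D.τ_smul, D.τ_smul, D.τ_a_pow_even hs]
    have h5 : ((2 * k).choose k : ℂ) * (k.factorial : ℂ) * (k.factorial : ℂ) =
        ((2 * k).factorial : ℂ) := by
      have := Nat.choose_mul_factorial_mul_factorial (n := 2 * k) (k := k) (by omega)
      have h6 : 2 * k - k = k := by omega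
      rw [h6] at this
      exact_mod_cast this
    have h7 : (k.factorial : ℂ) ≠ 0 := by exact_mod_cast k.factorial_ne_zero
    have h8 : ((2 * k).factorial : ℂ) ≠ 0 := by exact_mod_cast (2 * k).factorial_ne_zero
    rw [pow_mul Complex.I, Complex.I_sq, pow_mul (r : ℂ)]
    push_cast
    rw [eq_inv_mul_iff_mul_eq₀ h8, ← h5]
    field_simp
  · intro n hn
    have h4 : ¬ ∃ k, 2 * k = n := fun ⟨k, hk⟩ => hn ⟨k, hk⟩
    rw [smul_pow, smul_pow, D.τ_smul, D.τ_smul, D.τ_smul, D.τ_a_pow_odd hs h4]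
    ring

theorem τ_E_real {s : Γ} (hs : ∀ k : ℤ, s ^ k = 1 → k = 0) (r : ℝ) :
    (D.τ (E ((r : ℂ) • D.a s))).im = 0 := by
  have h := Complex.hasSum_im (D.hasSum_τ_E hs r)
  simp only [Complex.ofReal_im] at h
  exact h.unique hasSum_zero

theorem τ_E_neg {s : Γ} (hs : ∀ k : ℤ, s ^ k = 1 → k = 0) :
    (D.τ (E (((Real.sqrt 2 : ℝ) : ℂ) • D.a s))).re < 0 := by
  have h := Complex.hasSum_re (D.hasSum_τ_E hs (Real.sqrt 2))
  simp only [Complex.ofReal_re, Real.sq_sqrt (show (0 : ℝ) ≤ 2 by norm_num)] at h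
  set v := (D.τ (E (((Real.sqrt 2 : ℝ) : ℂ) • D.a s))).re
  have h1 := (hasSum_nat_add_iff' 4).2 h
  have h2 : HasSum (fun k : ℕ => (1 / 36 : ℝ) * (1 / 8) ^ k) (1 / 36 * (1 - 1 / 8)⁻¹) :=
    (hasSum_geometric_of_lt_one (by norm_num) (by norm_num)).mul_left _
  have h3 : ∀ k : ℕ, (2 : ℝ) ^ (k + 4) / ((k + 4).factorial : ℝ) ^ 2 ≤ 1 / 36 * (1 / 8) ^ k := by
    intro k
    induction k with
    | zero => norm_num [Nat.factorial]
    | succ k ih =>
      have h4 : (((k + 1 + 4).factorial : ℕ) : ℝ) = (k + 5) * ((k + 4).factorial : ℝ) := by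
        have : (k + 1 + 4).factorial = (k + 5) * (k + 4).factorial := by
          rw [show k + 1 + 4 = (k + 4) + 1 by ring, Nat.factorial_succ]
        rw [this]
        push_cast
        ring
      have h5 : (0 : ℝ) < ((k + 4).factorial : ℝ) := by exact_mod_cast (k + 4).factorial_pos
      have h6 : (2 : ℝ) ^ (k + 1 + 4) / ((k + 1 + 4).factorial : ℝ) ^ 2 =
          (2 ^ (k + 4) / ((k + 4).factorial : ℝ) ^ 2) * (2 / ((k : ℝ) + 5) ^ 2) := by
        rw [h4]
        field_simp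
        ring
      rw [h6, pow_succ (1 / 8 : ℝ) k, ← mul_assoc (1 / 36 : ℝ)]
      have h7 : (2 : ℝ) / ((k : ℝ) + 5) ^ 2 ≤ 1 / 8 := by
        rw [div_le_div_iff₀ (by positivity) (by norm_num)]
        have : (0 : ℝ) ≤ k := by positivity
        nlinarith
      exact mul_le_mul ih h7 (by positivity) (by positivity)
  have h4 := hasSum_le (fun k => ?_) h1 h2
  · norm_num [Finset.sum_range_succ, Nat.factorial] at h4
    linarith
  · refine le_trans ?_ (h3 k)
    refine div_le_div_of_nonneg_right ?_ (by positivity)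
    have h5 : |(-1 : ℝ) ^ (k + 4) * 2 ^ (k + 4)| = 2 ^ (k + 4) := by
      rw [abs_mul, abs_pow, abs_neg, abs_one, one_pow, one_mul, abs_of_pos (by positivity)]
    exact (le_abs_self _).trans h5.le

theorem τ_E_continuous (x : A) : Continuous fun r : ℝ => D.τ (E ((r : ℂ) • x)) := by
  have h1 : Continuous fun r : ℝ => E ((r : ℂ) • x) :=
    continuous_iff_continuousAt.2 fun t => (hasDerivAt_E x t).continuousAt
  exact D.τ_continuous.comp h1

theorem exists_zero {s : Γ} (hs : ∀ k : ℤ, s ^ k = 1 → k = 0) :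
    ∃ r : ℝ, D.τ (E ((r : ℂ) • D.a s)) = 0 := by
  have hc : Continuous fun r : ℝ => (D.τ (E ((r : ℂ) • D.a s))).re :=
    Complex.continuous_re.comp (D.τ_E_continuous _)
  have h0 : (D.τ (E (((0 : ℝ) : ℂ) • D.a s))).re = 1 := by
    rw [Complex.ofReal_zero, zero_smul, E_zero, D.τ_one, Complex.one_re]
  have h1 := D.τ_E_neg hs
  have h2 := mem_range_of_exists_le_of_exists_ge hc (c := 0) ⟨_, h1.le⟩
    ⟨0, by rw [h0]; norm_num⟩
  obtain ⟨r, hr⟩ := h2
  exact ⟨r, Complex.ext hr (D.τ_E_real hs r)⟩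

end GS

end Pool.Agent.R288.CL
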