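import Mathlib
import Pool.Agent.R288.CL.OP3

/-!
# MP_335bcb_an: the abstract operator algebraic theorem
-/

set_option autoImplicit false

open Filter Topology
open scoped InnerProductSpace

namespace Pool.Agent.R288.CL

variable {A H Γ : Type} [CStarAlgebra A] [NormedAddCommGroup H] [InnerProductSpace ℂ H]
    [Group Γ] (D : GS A H Γ)

theorem smul_sa (r : ℝ) {x : A} (hx : IsSelfAdjoint x) : IsSelfAdjoint ((r : ℂ) • x) := by
  rw [isSelfAdjoint_iff, star_smul, hx.star_eq]
  simp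

namespace GS

/-- the multiplicative commutator of exponentials -/
noncomputable def cc (g h : Γ) (α β : ℝ) : A :=
  E ((α : ℂ) • D.a g) * E ((β : ℂ) • D.a h) * star (E ((α : ℂ) • D.a g)) *
    star (E ((β : ℂ) • D.a h))

theorem Ea_unitary (g : Γ) (α : ℝ) : E ((α : ℂ) • D.a g) ∈ unitary A :=
  E_unitary (smul_sa α (D.a_sa g))

theorem cc_unitary (g h : Γ) (α β : ℝ) : D.cc g h α β ∈ unitary A :=
  mul_mem (mul_mem (mul_mem (D.Ea_unitary g α) (D.Ea_unitary h β))
    (Unitary.star_mem (D.Ea_unitary g α))) (Unitary.star_mem (D.Ea_unitary h β))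

/-- a unitary whose trace has modulus `≥ 1` is a scalar -/
theorem scalar_of {u : A} (hu : u ∈ unitary A) (h : 1 ≤ ‖D.τ u‖) : u = D.τ u • (1 : A) := by
  have h1 : D.n2 (u - D.τ u • (1 : A)) ^ 2 = 0 := by
    have h2 : ((D.n2 (u - D.τ u • (1 : A)) ^ 2 : ℝ) : ℂ) = 1 - ((‖D.τ u‖ ^ 2 : ℝ) : ℂ) := by
      have e1 : ⟪D.ev 1, D.ev u⟫_ℂ = D.τ u := rfl
      have e2 : ⟪D.ev u, D.ev 1⟫_ℂ = (starRingEnd ℂ) (D.τ u) := by
        rw [← e1, inner_conj_symm]
      have e3 : ⟪D.ev u, D.ev u⟫_ℂ = 1 := by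
        rw [inner_self_eq_norm_sq_to_K]
        have : ‖D.ev u‖ = 1 := D.n2_unitary hu
        rw [this]
        norm_num
      have e4 : ⟪D.ev 1, D.ev 1⟫_ℂ = 1 := by
        rw [inner_self_eq_norm_sq_to_K, D.one_orth]
        norm_num
      have e5 : ((D.n2 (u - D.τ u • (1 : A)) ^ 2 : ℝ) : ℂ) =
          ⟪D.ev (u - D.τ u • (1 : A)), D.ev (u - D.τ u • (1 : A))⟫_ℂ := by
        rw [inner_self_eq_norm_sq_to_K]
        unfold n2
        push_cast
        rfl
      rw [e5, map_sub, map_smul, inner_sub_left, inner_sub_right, inner_sub_right,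
        inner_smul_left, inner_smul_right, inner_smul_left, inner_smul_right, e1, e2, e3, e4]
      have e6 : ((‖D.τ u‖ ^ 2 : ℝ) : ℂ) = (starRingEnd ℂ) (D.τ u) * D.τ u := by
        rw [← Complex.normSq_eq_conj_mul_self, Complex.normSq_eq_norm_sq]
      rw [e6]
      ring
    have h3 : D.n2 (u - D.τ u • (1 : A)) ^ 2 = 1 - ‖D.τ u‖ ^ 2 := by exact_mod_cast h2
    have h4 : 0 ≤ D.n2 (u - D.τ u • (1 : A)) ^ 2 := sq_nonneg _
    nlinarith
  have h5 : D.ev (u - D.τ u • (1 : A)) = 0 := norm_eq_zero.1 (pow_eq_zero_iff two_ne_zero |>.1 h1)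
  exact sub_eq_zero.1 (D.faithful _ h5)

/-- If all `cc` are scalars then `a g` and `a h` commute. -/
theorem comm_of_cc {g h : Γ} (hcc : ∀ α β : ℝ, 1 ≤ ‖D.τ (D.cc g h α β)‖) :
    Commute (D.a g) (D.a h) := by
  -- for small `β` everything commutes
  have h1 : ∀ᶠ β : ℝ in 𝓝 0, D.τ (E ((β : ℂ) • D.a h)) ≠ 0 := by
    have hc := (D.τ_E_continuous (D.a h)).continuousAt (x := 0)
    refine hc.eventually_ne ?_
    rw [Complex.ofReal_zero, zero_smul, E_zero, D.τ_one]
    exact one_ne_zero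
  have h2 : ∀ α : ℝ, ∀ᶠ β : ℝ in 𝓝 0, E ((α : ℂ) • D.a g) * E ((β : ℂ) • D.a h) =
      E ((β : ℂ) • D.a h) * E ((α : ℂ) • D.a g) := by
    intro α
    filter_upwards [h1] with β hβ
    have h3 := D.scalar_of (D.cc_unitary g h α β) (hcc α β)
    set l := D.τ (D.cc g h α β)
    have hu := D.Ea_unitary g α
    have hv := D.Ea_unitary h β
    set u := E ((α : ℂ) • D.a g)
    set v := E ((β : ℂ) • D.a h)
    have h4 : u * v * star u = l • v := by
      have h5 : D.cc g h α β * v = l • v := by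
        rw [h3, smul_mul_assoc, one_mul]
      have h6 : D.cc g h α β * v = u * v * star u := by
        show u * v * star u * star v * v = _
        rw [mul_assoc (u * v * star u), (Unitary.mem_iff.1 hv).1, mul_one]
      rw [← h6, h5]
    have h7 : D.τ v = l * D.τ v := by
      have := congrArg D.τ h4
      rw [D.τ_conj hu, D.τ_smul] at this
      exact this
    have h8 : l = 1 := by
      have : (1 - l) * D.τ v = 0 := by linear_combination h7
      rcases mul_eq_zero.1 this with h | h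
      · linear_combination -h
      · exact absurd h hβ
    rw [h8, one_smul] at h4
    calc u * v = u * v * (star u * u) := by rw [(Unitary.mem_iff.1 hu).1, mul_one]
      _ = (u * v * star u) * u := by rw [mul_assoc (u * v)]
      _ = v * u := by rw [h4]
  -- differentiate in `β`
  have h3 : ∀ α : ℝ, E ((α : ℂ) • D.a g) * D.a h = D.a h * E ((α : ℂ) • D.a g) := by
    intro α
    have hd := hasDerivAt_E (D.a h) 0
    have hl := hd.const_mul (E ((α : ℂ) • D.a g))
    have hr := hd.mul_const (E ((α : ℂ) • D.a g))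
    have hr' := hr.congr_of_eventuallyEq (h2 α)
    have := hl.unique hr'
    rw [Complex.ofReal_zero, zero_smul, E_zero, one_mul, mul_smul_comm, smul_mul_assoc] at this
    exact smul_right_injective A Complex.I_ne_zero this
  have hd := hasDerivAt_E (D.a g) 0
  have hl := hd.mul_const (D.a h)
  have hr := hd.const_mul (D.a h)
  have hr' := hr.congr_of_eventuallyEq (Eventually.of_forall h3)
  have := hl.unique hr'
  rw [Complex.ofReal_zero, zero_smul, E_zero, one_mul, mul_smul_comm, smul_mul_assoc] at this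
  exact smul_right_injective A Complex.I_ne_zero this

theorem exists_cc {g h : Γ} (w1 : g * h ≠ h * g) (w2 : g * h ≠ h * g⁻¹) (w3 : g * h ≠ h⁻¹ * g)
    (w4 : g * h ≠ h⁻¹ * g⁻¹) : ∃ α β : ℝ, ‖D.τ (D.cc g h α β)‖ < 1 := by
  by_contra hcon
  push Not at hcon
  have hcomm := D.comm_of_cc hcon
  have hk : ∀ k : Γ, ⟪D.ev (D.L (g * h)), D.ev (D.L k)⟫_ℂ = 1 ∨
      ⟪D.ev (D.L (g * h)), D.ev (D.L k)⟫_ℂ = 0 := by
    intro k
    by_cases hk : g * h = k
    · left
      rw [← hk, inner_self_eq_norm_sq_to_K, D.orth.1 (g * h)]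
      norm_num
    · exact Or.inr (D.orth.2 hk)
  have hk0 : ∀ k : Γ, g * h ≠ k → ⟪D.ev (D.L (g * h)), D.ev (D.L k)⟫_ℂ = 0 := fun k hk =>
    D.orth.2 hk
  have h1 : D.a g * D.a h = D.L (g * h) + D.L (g * h⁻¹) + (D.L (g⁻¹ * h) + D.L (g⁻¹ * h⁻¹)) := by
    unfold a
    rw [add_mul, mul_add, mul_add, ← map_mul, ← map_mul, ← map_mul, ← map_mul]
  have h2 : D.a h * D.a g = D.L (h * g) + D.L (h * g⁻¹) + (D.L (h⁻¹ * g) + D.L (h⁻¹ * g⁻¹)) := by
    unfold a
    rw [add_mul, mul_add, mul_add, ← map_mul, ← map_mul, ← map_mul, ← map_mul]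
  have h3 : ⟪D.ev (D.L (g * h)), D.ev (D.a g * D.a h)⟫_ℂ = 0 := by
    rw [hcomm.eq, h2, map_add, map_add, map_add, inner_add_right, inner_add_right,
      inner_add_right, hk0 _ w1, hk0 _ w2, hk0 _ w3, hk0 _ w4]
    ring
  rw [h1, map_add, map_add, map_add, inner_add_right, inner_add_right, inner_add_right] at h3
  have h4 : ⟪D.ev (D.L (g * h)), D.ev (D.L (g * h))⟫_ℂ = 1 := by
    rw [inner_self_eq_norm_sq_to_K, D.orth.1 (g * h)]
    norm_num
  rw [h4] at h3
  have h5 := congrArg Complex.re h3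
  rw [Complex.add_re, Complex.add_re, Complex.add_re, Complex.one_re, Complex.zero_re] at h5
  have h6 : ∀ k : Γ, 0 ≤ (⟪D.ev (D.L (g * h)), D.ev (D.L k)⟫_ℂ).re := by
    intro k
    rcases hk k with h | h <;> rw [h] <;> norm_num
  have := h6 (g * h⁻¹)
  have := h6 (g⁻¹ * h)
  have := h6 (g⁻¹ * h⁻¹)
  linarith

theorem cc_conj (u g h : Γ) (α β : ℝ) :
    D.τ (D.cc (u * g * u⁻¹) (u * h * u⁻¹) α β) = D.τ (D.cc g h α β) := by
  have hu := D.L_unitary u
  have e : ∀ (k : Γ) (r : ℝ), E ((r : ℂ) • D.a (u * k * u⁻¹)) =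
      D.L u * E ((r : ℂ) • D.a k) * star (D.L u) := by
    intro k r
    rw [E_conj hu, mul_smul_comm, smul_mul_assoc, D.a_conj]
  have h1 : D.cc (u * g * u⁻¹) (u * h * u⁻¹) α β = D.L u * D.cc g h α β * star (D.L u) := by
    have hs := (Unitary.mem_iff.1 hu).1
    unfold cc
    rw [e, e]
    simp only [star_mul, star_star]
    simp only [mul_assoc]
    have k1 : ∀ x : A, star (D.L u) * (D.L u * x) = x := by
      intro x
      rw [← mul_assoc, hs, one_mul]
    simp only [k1]
  rw [h1, D.τ_conj hu]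

/-- the sum without the top term -/
noncomputable def rest (x : ℕ → Γ) (r : ℝ) (N : ℕ) : A :=
  ∑ m ∈ (Finset.range (4 * N + 4)).erase (2 * N + 1), ((r * tent N m : ℝ) : ℂ) • D.a (x m)

theorem S_split (x : ℕ → Γ) (r : ℝ) (N : ℕ) :
    D.S x (fun m => r * tent N m) (4 * N + 4) =
      (r : ℂ) • D.a (x (2 * N + 1)) + D.rest x r N := by
  unfold S rest
  rw [← Finset.add_sum_erase _ _ (Finset.mem_range.2 (by omega : 2 * N + 1 < 4 * N + 4))]
  beta_reduce
  rw [tent_top, mul_one]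

theorem rest_sa (x : ℕ → Γ) (r : ℝ) (N : ℕ) : IsSelfAdjoint (D.rest x r N) :=
  isSelfAdjoint_sum _ fun _ _ => smul_sa _ (D.a_sa _)

theorem rest_mem {x : ℕ → Γ} {Q : Subgroup Γ} {N : ℕ} (hx : ∀ m, m ≠ 2 * N + 1 → x m ∈ Q) (r : ℝ) :
    D.rest x r N ∈ D.CA Q :=
  (D.CA Q).sum_mem fun m hm => (D.CA Q).smul_mem (D.a_mem_CA (hx m (Finset.ne_of_mem_erase hm))) _

theorem rest_comm {x : ℕ → Γ} {g : Γ} {N : ℕ} (hx : ∀ m, m ≠ 2 * N + 1 → Commute g (x m)) (r : ℝ) :
    Commute (D.a g) (D.rest x r N) :=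
  Commute.sum_right _ _ _ fun m hm =>
    (D.a_comm (hx m (Finset.ne_of_mem_erase hm))).smul_right _

theorem U_split {x : ℕ → Γ} {N : ℕ} (hx : ∀ m, m ≠ 2 * N + 1 → Commute (x (2 * N + 1)) (x m))
    (r : ℝ) : D.U x r N = E ((r : ℂ) • D.a (x (2 * N + 1))) * E (D.rest x r N) := by
  unfold U
  rw [D.S_split, E_add ((D.rest_comm hx r).smul_left _)]

end GS

section main

variable {s t : ℕ → Γ} (hD : Data Γ s t)

include hD

theorem Data.comm_s (m n : ℕ) : Commute (s m) (s n) := by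
  by_cases h : m = n
  · rw [h]
  · exact hD.comm_ss m n h

theorem Data.comm_t (m n : ℕ) : Commute (t m) (t n) := by
  by_cases h : m = n
  · rw [h]
  · exact hD.comm_tt m n h

theorem Data.inj_s : Function.Injective s := by
  intro m n hmn
  by_contra hne
  have h1 : s m ∈ Subgroup.closure {s m, t m} := Subgroup.subset_closure (by simp)
  have h2 : s m ∈ Subgroup.closure {g | ∃ k, k ≠ m ∧ (g = s k ∨ g = t k)} :=
    Subgroup.subset_closure ⟨n, Ne.symm hne, Or.inl hmn⟩
  have h3 := Subgroup.disjoint_def.1 (hD.indep m) h1 h2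
  obtain ⟨g, hg, -⟩ := hD.shift m
  rw [h3] at hg
  have h4 : s 0 = 1 := by
    have : s 0 = g⁻¹ * (g * s 0 * g⁻¹) * g := by group
    rw [this, ← hg]
    group
  have := hD.ord 1 (by rw [h4, one_zpow])
  exact one_ne_zero this

theorem Data.inj_t : Function.Injective t := by
  intro m n hmn
  by_contra hne
  have h1 : t m ∈ Subgroup.closure {s m, t m} := Subgroup.subset_closure (by simp)
  have h2 : t m ∈ Subgroup.closure {g | ∃ k, k ≠ m ∧ (g = s k ∨ g = t k)} :=
    Subgroup.subset_closure ⟨n, Ne.symm hne, Or.inr hmn⟩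
  have h3 := Subgroup.disjoint_def.1 (hD.indep m) h1 h2
  obtain ⟨g, -, hg⟩ := hD.shift m
  rw [h3] at hg
  have h4 : t 0 = 1 := by
    have : t 0 = g⁻¹ * (g * t 0 * g⁻¹) * g := by group
    rw [this, ← hg]
    group
  apply hD.w1
  rw [h4, one_mul, mul_one]

theorem central_s (r : ℝ) (x : A) :
    Tendsto (fun n => D.n2 (D.U s r n * x - x * D.U s r n)) atTop (𝓝 0) := by
  refine D.central_of (fun n => D.U_unitary _ _ _) (fun g => ?_) x
  obtain ⟨a, b, hab⟩ := hD.conj g
  exact D.U_comm_L hD.inj_s hD.comm_s r (fun m => (hab m).1)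

theorem central_t (r : ℝ) (x : A) :
    Tendsto (fun n => D.n2 (D.U t r n * x - x * D.U t r n)) atTop (𝓝 0) := by
  refine D.central_of (fun n => D.U_unitary _ _ _) (fun g => ?_) x
  obtain ⟨a, b, hab⟩ := hD.conj g
  exact D.U_comm_L hD.inj_t hD.comm_t r (fun m => (hab m).2)

omit hD in
theorem mem_Q_s {N m : ℕ} (hm : m ≠ N) :
    s m ∈ Subgroup.closure {g | ∃ k, k ≠ N ∧ (g = s k ∨ g = t k)} :=
  Subgroup.subset_closure ⟨m, hm, Or.inl rfl⟩

omit hD in
theorem mem_Q_t {N m : ℕ} (hm : m ≠ N) :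
    t m ∈ Subgroup.closure {g | ∃ k, k ≠ N ∧ (g = s k ∨ g = t k)} :=
  Subgroup.subset_closure ⟨m, hm, Or.inr rfl⟩

/-- the abstract form of property Gamma -/
theorem abs_gamma : ∃ u : ℕ → A, (∀ n, u n ∈ unitary A) ∧ (∀ n, D.τ (u n) = 0) ∧
    ∀ x, Tendsto (fun n => D.n2 (u n * x - x * u n)) atTop (𝓝 0) := by
  obtain ⟨r, hr⟩ := D.exists_zero hD.ord
  refine ⟨fun n => D.U s r n, fun n => D.U_unitary _ _ _, fun N => ?_, central_s D hD r⟩
  beta_reduce
  rw [D.U_split (fun m _ => hD.comm_s _ _)]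
  rw [D.τ_mul_CA (hD.indep (2 * N + 1))
    (D.E_mem_CA ((D.CA _).smul_mem (D.a_mem_CA (Subgroup.subset_closure (by simp))) _))
    (D.E_mem_CA (D.rest_mem (fun m hm => mem_Q_s hm) _))]
  obtain ⟨g, hg, -⟩ := hD.shift (2 * N + 1)
  have h1 : E ((r : ℂ) • D.a (s (2 * N + 1))) = D.L g * E ((r : ℂ) • D.a (s 0)) * star (D.L g) := by
    rw [E_conj (D.L_unitary g), mul_smul_comm, smul_mul_assoc, D.a_conj, ← hg]
  rw [h1, D.τ_conj (D.L_unitary g), hr, zero_mul]

/-- the abstract form of the McDuff property -/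
theorem abs_mcduff : ∃ u w : ℕ → A, (∀ n, u n ∈ unitary A) ∧ (∀ n, w n ∈ unitary A) ∧
    (∀ x, Tendsto (fun n => D.n2 (u n * x - x * u n)) atTop (𝓝 0)) ∧
    (∀ x, Tendsto (fun n => D.n2 (w n * x - x * w n)) atTop (𝓝 0)) ∧
    ∃ c : ℝ, 0 < c ∧ ∀ n, c ≤ D.n2 (u n * w n - w n * u n) := by
  obtain ⟨α, β, hαβ⟩ := D.exists_cc hD.w1 hD.w2 hD.w3 hD.w4
  set κ := ‖D.τ (D.cc (s 0) (t 0) α β)‖ with hκ
  refine ⟨fun n => D.U s α n, fun n => D.U t β n, fun n => D.U_unitary _ _ _,
    fun n => D.U_unitary _ _ _, central_s D hD α, central_t D hD β, Real.sqrt (2 - 2 * κ),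
    Real.sqrt_pos.2 (by linarith), fun N => ?_⟩
  set p := 2 * N + 1 with hp
  set P := Subgroup.closure {s p, t p} with hP
  set Q := Subgroup.closure {g | ∃ k, k ≠ p ∧ (g = s k ∨ g = t k)} with hQ
  have hsP : s p ∈ P := Subgroup.subset_closure (by simp)
  have htP : t p ∈ P := Subgroup.subset_closure (by simp)
  have hu := D.U_unitary s α N
  have hw := D.U_unitary t β N
  have hu1 := D.Ea_unitary (s p) α
  have hw1 := D.Ea_unitary (t p) β
  have hru := D.rest_sa s α N
  have hrw := D.rest_sa t β N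
  have eu : D.U s α N = E ((α : ℂ) • D.a (s p)) * E (D.rest s α N) :=
    D.U_split (fun m _ => hD.comm_s _ _) α
  have ew : D.U t β N = E ((β : ℂ) • D.a (t p)) * E (D.rest t β N) :=
    D.U_split (fun m _ => hD.comm_t _ _) β
  have c1 : Commute (E ((β : ℂ) • D.a (t p))) (E (D.rest s α N)) :=
    E_comm ((D.rest_comm (fun m hm => (hD.comm_st m p hm).symm) α).smul_left _)
  have c2 : Commute (E ((α : ℂ) • D.a (s p))) (E (D.rest s α N)) :=
    E_comm ((D.rest_comm (fun m hm => hD.comm_ss p m (Ne.symm hm)) α).smul_left _)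
  have c3 : Commute (E ((α : ℂ) • D.a (s p))) (E (D.rest t β N)) :=
    E_comm ((D.rest_comm (fun m hm => hD.comm_st p m (Ne.symm hm)) β).smul_left _)
  have c4 : Commute (E ((β : ℂ) • D.a (t p))) (E (D.rest t β N)) :=
    E_comm ((D.rest_comm (fun m hm => hD.comm_tt p m (Ne.symm hm)) β).smul_left _)
  set u1 := E ((α : ℂ) • D.a (s p)) with hu1d
  set w1 := E ((β : ℂ) • D.a (t p)) with hw1d
  set u2 := E (D.rest s α N) with hu2d
  set w2 := E (D.rest t β N) with hw2d
  have su1 : star u1 = E (-((α : ℂ) • D.a (s p))) := star_E (smul_sa α (D.a_sa _))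
  have su2 : star u2 = E (-(D.rest s α N)) := star_E hru
  have sw2 : star w2 = E (-(D.rest t β N)) := star_E hrw
  have hu2 : u2 ∈ unitary A := E_unitary hru
  have hw2 : w2 ∈ unitary A := E_unitary hrw
  -- the product
  have hprod : D.U s α N * D.U t β N * star (D.U s α N) * star (D.U t β N) =
      D.cc (s p) (t p) α β * (u2 * w2 * star u2 * star w2) := by
    have d1 : Commute u2 w1 := c1.symm
    have d3 : Commute u2 (star u1) := by
      have h := c2
      have h2 : Commute (star u1) u2 := by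
        rw [su1]
        have : Commute (D.a (s p)) (D.rest s α N) :=
          D.rest_comm (fun m hm => hD.comm_ss p m (Ne.symm hm)) α
        exact E_comm ((this.smul_left _).neg_left)
      exact h2.symm
    have d4 : Commute w2 (star u1) := by
      have h2 : Commute (star u1) w2 := by
        rw [su1]
        have : Commute (D.a (s p)) (D.rest t β N) :=
          D.rest_comm (fun m hm => hD.comm_st p m (Ne.symm hm)) β
        exact E_comm ((this.smul_left _).neg_left)
      exact h2.symm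
    have d5 : Commute u2 (star w1) := by
      have h2 : Commute (star w1) u2 := by
        rw [star_E (smul_sa β (D.a_sa _))]
        have : Commute (D.a (t p)) (D.rest s α N) :=
          D.rest_comm (fun m hm => (hD.comm_st m p hm).symm) α
        exact E_comm ((this.smul_left _).neg_left)
      exact h2.symm
    have d6 : Commute w2 (star w1) := by
      have h2 : Commute (star w1) w2 := by
        rw [star_E (smul_sa β (D.a_sa _))]
        have : Commute (D.a (t p)) (D.rest t β N) :=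
          D.rest_comm (fun m hm => hD.comm_tt p m (Ne.symm hm)) β
        exact E_comm ((this.smul_left _).neg_left)
      exact h2.symm
    have d7 : Commute (star u2) (star w1) := d1.star_star
    have d8 : Commute (star u2) (star u1) := c2.symm.star_star
    have d9 : Commute (star w2) (star w1) := c4.symm.star_star
    rw [eu, ew, star_mul, star_mul]
    unfold GS.cc
    show u1 * u2 * (w1 * w2) * (star u2 * star u1) * (star w2 * star w1) =
      u1 * w1 * star u1 * star w1 * (u2 * w2 * star u2 * star w2)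
    calc u1 * u2 * (w1 * w2) * (star u2 * star u1) * (star w2 * star w1)
        = u1 * (u2 * w1) * w2 * (star u2 * star u1) * (star w2 * star w1) := by
          simp only [mul_assoc]
      _ = u1 * (w1 * u2) * w2 * (star u1 * star u2) * (star w1 * star w2) := by
          rw [d1.eq, d8.eq, d9.eq]
      _ = u1 * w1 * u2 * (w2 * star u1) * (star u2 * star w1) * star w2 := by
          simp only [mul_assoc]
      _ = u1 * w1 * u2 * (star u1 * w2) * (star w1 * star u2) * star w2 := by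
          rw [d4.eq, d7.eq]
      _ = u1 * w1 * (u2 * star u1) * (w2 * star w1) * star u2 * star w2 := by
          simp only [mul_assoc]
      _ = u1 * w1 * (star u1 * u2) * (star w1 * w2) * star u2 * star w2 := by
          rw [d3.eq, d6.eq]
      _ = u1 * w1 * star u1 * (u2 * star w1) * w2 * star u2 * star w2 := by
          simp only [mul_assoc]
      _ = u1 * w1 * star u1 * (star w1 * u2) * w2 * star u2 * star w2 := by
          rw [d5.eq]
      _ = u1 * w1 * star u1 * star w1 * (u2 * w2 * star u2 * star w2) := by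
          simp only [mul_assoc]
  have hccP : D.cc (s p) (t p) α β ∈ D.CA P := by
    have h1 : u1 ∈ D.CA P := D.E_mem_CA ((D.CA P).smul_mem (D.a_mem_CA hsP) _)
    have h2 : w1 ∈ D.CA P := D.E_mem_CA ((D.CA P).smul_mem (D.a_mem_CA htP) _)
    have h3 : star u1 ∈ D.CA P := by
      rw [su1]
      exact D.E_mem_CA ((D.CA P).neg_mem ((D.CA P).smul_mem (D.a_mem_CA hsP) _))
    have h4 : star w1 ∈ D.CA P := by
      rw [star_E (smul_sa β (D.a_sa _))]
      exact D.E_mem_CA ((D.CA P).neg_mem ((D.CA P).smul_mem (D.a_mem_CA htP) _))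
    exact mul_mem (mul_mem (mul_mem h1 h2) h3) h4
  have hrQ : u2 * w2 * star u2 * star w2 ∈ D.CA Q := by
    have k1 : D.rest s α N ∈ D.CA Q := D.rest_mem (fun m hm => mem_Q_s hm) _
    have k2 : D.rest t β N ∈ D.CA Q := D.rest_mem (fun m hm => mem_Q_t hm) _
    have h1 : u2 ∈ D.CA Q := D.E_mem_CA k1
    have h2 : w2 ∈ D.CA Q := D.E_mem_CA k2
    have h3 : star u2 ∈ D.CA Q := by
      rw [su2]
      exact D.E_mem_CA ((D.CA Q).neg_mem k1)
    have h4 : star w2 ∈ D.CA Q := by
      rw [sw2]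
      exact D.E_mem_CA ((D.CA Q).neg_mem k2)
    exact mul_mem (mul_mem (mul_mem h1 h2) h3) h4
  obtain ⟨g, hg1, hg2⟩ := hD.shift p
  have hτ : ‖D.τ (D.U s α N * D.U t β N * star (D.U s α N) * star (D.U t β N))‖ ≤ κ := by
    rw [hprod, D.τ_mul_CA (hD.indep p) hccP hrQ, norm_mul, hg1, hg2, D.cc_conj, ← hκ]
    have h1 := D.norm_τ_unitary (mul_mem (mul_mem (mul_mem hu2 hw2) (Unitary.star_mem hu2))
      (Unitary.star_mem hw2))
    exact mul_le_of_le_one_right (norm_nonneg _) h1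
  set U1 := D.U s α N
  set W1 := D.U t β N
  have hv : U1 * W1 * star U1 * star W1 ∈ unitary A :=
    mul_mem (mul_mem (mul_mem hu hw) (Unitary.star_mem hu)) (Unitary.star_mem hw)
  set V := U1 * W1 * star U1 * star W1 with hV
  have h1 : D.n2 (U1 * W1 - W1 * U1) = D.n2 (V - 1) := by
    have h2 : V - 1 = (U1 * W1 - W1 * U1) * (star U1 * star W1) := by
      rw [sub_mul, hV]
      have : W1 * U1 * (star U1 * star W1) = 1 := by
        rw [mul_assoc, ← mul_assoc U1, (Unitary.mem_iff.1 hu).2, one_mul, (Unitary.mem_iff.1 hw).2]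
      rw [this]
      simp only [mul_assoc]
    rw [h2, D.n2_unitary_right (mul_mem (Unitary.star_mem hu) (Unitary.star_mem hw))]
  rw [h1]
  have h3 : D.n2 (V - 1) ^ 2 = 2 - 2 * (D.τ V).re := by
    have e1 : ⟪D.ev 1, D.ev V⟫_ℂ = D.τ V := rfl
    have h4 : D.n2 (V - 1) ^ 2 = ‖D.ev V‖ ^ 2 - 2 * (⟪D.ev V, D.ev 1⟫_ℂ).re + ‖D.ev 1‖ ^ 2 := by
      unfold GS.n2
      rw [map_sub]
      exact norm_sub_sq (𝕜 := ℂ) _ _
    have h5 : ‖D.ev V‖ = 1 := D.n2_unitary hv
    have h6 : (⟪D.ev V, D.ev 1⟫_ℂ).re = (D.τ V).re := by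
      rw [← inner_conj_symm, e1, Complex.conj_re]
    rw [h4, h5, h6, D.one_orth]
    ring
  refine Real.sqrt_le_iff.2 ⟨D.n2_nonneg _, ?_⟩
  rw [h3]
  have h7 : (D.τ V).re ≤ κ := (Complex.re_le_norm _).trans hτ
  linarith

end main

end Pool.Agent.R288.CL
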