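import Mathlib
import Pool.Agent.R288.CL.OP4
import Pool.Agent.R288.CL.DefsO
import Pool.Agent.Helper278.RGVN
import Pool.Agent.Helper436.SN.Bridge

/-!
# MP_335bcb_an: the group von Neumann algebra
-/

set_option autoImplicit false

open Filter Topology
open scoped InnerProductSpace

namespace Pool.Agent.R288.CL

open Pool.Agent.Helper278 Pool.Agent.Helper278.CE Pool.Agent.Helper278.RG Pool.Agent.Helper436.SN

variable {Γ : Type} [Group Γ] {K : Type} [NormedAddCommGroup K] [InnerProductSpace ℂ K]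
  [CompleteSpace K] (b : HilbertBasis Γ ℂ K)

/-- evaluation at the trace vector -/
noncomputable def evK : Elt (LK b) →L[ℂ] K :=
  LinearMap.mkContinuous
    { toFun := fun x => (x : K →L[ℂ] K) (b 1)
      map_add' := fun _ _ => rfl
      map_smul' := fun _ _ => rfl } 1 (by
        intro x
        rw [one_mul]
        exact N2_le b x)

theorem evK_apply (x : Elt (LK b)) : evK b x = (x : K →L[ℂ] K) (b 1) := rfl

noncomputable def gsK : GS (Elt (LK b)) K Γ where
  ev := evK b
  L := { toFun := La b, map_one' := La_one b, map_mul' := fun g h => (La_mul b g h).symm }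
  star_L g := star_La b g
  orth := by
    have h : (fun g => evK b (La b g)) = b := by
      funext g
      rw [evK_apply]
      show lamK b g (b 1) = b g
      rw [lamK_basis, mul_one]
    show Orthonormal ℂ fun g => evK b (La b g)
    rw [h]
    exact b.orthonormal
  inner_ev x y := by
    rw [evK_apply, evK_apply, ← trG_star_mul' b x y]
    rfl
  tr x y := (isTr_trG b).comm x y
  dense x ε hε := by
    obtain ⟨a, ⟨v, hv⟩, ha⟩ := dense_CG b x ε hε
    refine ⟨a, ?_, ha⟩
    have hv' : Lop b v = a := hv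
    rw [← hv', Lop_apply]
    exact Submodule.sum_mem _ fun g _ => Submodule.smul_mem _ _ (Submodule.subset_span ⟨g, rfl⟩)
  faithful x hx := by
    refine (faithful_trG b).faithful x ?_
    show trG b (star x * x) = 0
    rw [trG_star_mul]
    have : N2 b x = 0 := by
      unfold N2
      rw [← evK_apply, hx, norm_zero]
    rw [this]
    simp

theorem coe_unitary {u : Elt (LK b)} (hu : u ∈ unitary (Elt (LK b))) :
    (u : K →L[ℂ] K) ∈ unitary (K →L[ℂ] K) := by
  rw [Unitary.mem_iff] at hu ⊢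
  exact ⟨congrArg Subtype.val hu.1, congrArg Subtype.val hu.2⟩

theorem isCentral_of {u : ℕ → Elt (LK b)} (hu : ∀ n, u n ∈ unitary (Elt (LK b)))
    (hc : ∀ x, Tendsto (fun n => (gsK b).n2 (u n * x - x * u n)) atTop (𝓝 0)) :
    IsCentral (LK b) (b 1) (fun n => (u n : K →L[ℂ] K)) :=
  ⟨fun n => (u n).2, fun n => coe_unitary b (hu n), fun x hx => hc ⟨x, hx⟩⟩

theorem OP : OP_stm := by
  intro Γ _ s t hD
  unfold GammaAndMcDuff
  rw [LG_eq, dirac_eq]
  refine ⟨?_, ?_⟩
  · obtain ⟨u, hu, h0, hc⟩ := abs_gamma (gsK (sb Γ)) hD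
    exact ⟨fun n => (u n : EllTwo Γ →L[ℂ] EllTwo Γ), isCentral_of (sb Γ) hu hc, h0⟩
  · obtain ⟨u, w, hu, hw, hcu, hcw, c, hc, hn⟩ := abs_mcduff (gsK (sb Γ)) hD
    exact ⟨fun n => (u n : EllTwo Γ →L[ℂ] EllTwo Γ), fun n => (w n : EllTwo Γ →L[ℂ] EllTwo Γ),
      isCentral_of (sb Γ) hu hcu, isCentral_of (sb Γ) hw hcw, c, hc, fun n => hn n⟩

end Pool.Agent.R288.CL
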