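import Pool.Agent.R288.CL.Defs

/-!
# MP_335bcb_an: statements of the independent pieces
-/

set_option autoImplicit false

namespace Pool.Agent.R288.CL

/-- GA: the group acts faithfully on `{0,1}^ℕ × G`. -/
def GA_stm : Prop := ∀ (G : Type) [Group G] (φ : G ≃* G), (∀ g, φ (φ g) = g) →
  ∀ A : List G → Prop, (A = AllLab ∨ A = PsiLab) →
  ∀ (Γ : Type) [Group Γ] (cls : {t : Triple G // A t.lab} → Γ), IsCloningGroup φ A Γ cls →
    ∃ ρ : Γ →* Equiv.Perm (X G), Function.Injective ρ ∧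
      ∀ (t : {t : Triple G // A t.lab}) (k : ℕ) (hk : k < t.1.lab.length) (p : X G),
        ρ (cls t) (place φ t.1.tp k p) = place φ t.1.tm k (act (t.1.lab[k]) p)

/-- GC: existence of the groups. -/
def GC_stm : Prop := ∀ (G : Type) [Group G] (φ : G ≃* G), (∀ g, φ (φ g) = g) →
  ∀ A : List G → Prop, (A = AllLab ∨ A = PsiLab) →
    ∃ (Γ : Type) (_ : Group Γ) (cls : {t : Triple G // A t.lab} → Γ), IsCloningGroup φ A Γ cls

/-- GB: the elements `s_m`, `t_m`. -/
def GB_stm : Prop := ∀ (G : Type) [Group G] (φ : G ≃* G), (∀ g, φ (φ g) = g) →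
  ∀ A : List G → Prop, (A = AllLab ∨ A = PsiLab) →
  ∀ (Γ : Type) [Group Γ] (cls : {t : Triple G // A t.lab} → Γ), Function.Surjective cls →
  ∀ ρ : Γ →* Equiv.Perm (X G), Function.Injective ρ →
      (∀ (t : {t : Triple G // A t.lab}) (k : ℕ) (hk : k < t.1.lab.length) (p : X G),
        ρ (cls t) (place φ t.1.tp k p) = place φ t.1.tm k (act (t.1.lab[k]) p)) →
    ∃ s t : ℕ → Γ, Data Γ s t

end Pool.Agent.R288.CL
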